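import Pool.Agent.L7h79.GD.Size

/-!
# The gcd recursion for Goldbach pairs: the sum over the paths
-/

set_option autoImplicit false

namespace Pool.Agent.L7h79.GD

open Finset

/-- the class modulo `Q` and the path up to `T` -/
def key (Q T N : ℕ) : ℕ × (Fin (T + 1) → ℕ) := (N % Q, fun k => E (N : ℤ) k)

theorem key_eq {Q T N N' : ℕ} (h : key Q T N = key Q T N') :
    N % Q = N' % Q ∧ ∀ k, k ≤ T → E (N : ℤ) k = E (N' : ℤ) k := by
  unfold key at h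
  rw [Prod.mk.injEq] at h
  refine ⟨h.1, fun k hk => ?_⟩
  exact congrFun h.2 ⟨k, by omega⟩

open Classical in
/-- the paths, each with its weight, have a total weight at most `Q` -/
theorem sum_paths (hCRT : S_CRT) (T z w Q : ℕ) (hQ1 : 1 ≤ Q)
    (hQ : ∀ p j : ℕ, p.Prime → p ≤ w → p ^ j ≤ z → p ^ j ∣ Q) (hQ2 : ∀ p : ℕ, p.Prime → w < p → ¬ p ∣ Q)
    (hz : z < (w + 1) ^ 2) (S : Finset (ℕ × (Fin (T + 1) → ℕ))) (f : ℕ × (Fin (T + 1) → ℕ) → ℕ)
    (hf : ∀ κ ∈ S, key Q T (f κ) = κ ∧ T + 2 * E (f κ : ℤ) T ≤ z) :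
    ∑ κ ∈ S, ∏ p ∈ (Ioc w z).filter Nat.Prime, ((Ok T (f κ) p).card : ℝ) / p ≤ Q := by
  obtain ⟨P, hP⟩ : ∃ P : Finset ℕ, P = (Ioc w z).filter Nat.Prime := ⟨_, rfl⟩
  rw [← hP]
  have hmem : ∀ p ∈ P, p.Prime ∧ w < p ∧ p ≤ z := by
    intro p hp
    rw [hP, mem_filter, mem_Ioc] at hp
    exact ⟨hp.2, hp.1⟩
  obtain ⟨M, hM⟩ : ∃ M : ℕ, M = Q * ∏ p ∈ P, p := ⟨_, rfl⟩
  have h1 : ∀ κ ∈ S, ∏ p ∈ P, (Ok T (f κ) p).card ≤ ((range M).filter (fun x => key Q T x = κ)).card := by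
    intro κ hκ
    obtain ⟨hk1, hk2⟩ := hf κ hκ
    have h2 := hCRT Q (f κ % Q) P (fun p => Ok T (f κ) p) hQ1 (Nat.mod_lt _ hQ1) (fun p hp =>
      ⟨(hmem p hp).1, hQ2 p (hmem p hp).1 (hmem p hp).2.1, filter_subset _ _⟩)
    refine h2.trans (card_le_card ?_)
    rw [← hM]
    intro x hx
    rw [mem_filter] at hx ⊢
    refine ⟨hx.1, ?_⟩
    have h3 := det hQ hz hk2 hx.2.1 (fun p hp hwp hpz => hx.2.2 p (by
      rw [hP, mem_filter, mem_Ioc]
      exact ⟨⟨hwp, hpz⟩, hp⟩))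
    rw [← hk1]
    unfold key
    rw [Prod.mk.injEq]
    refine ⟨hx.2.1, ?_⟩
    funext k
    exact h3 k (by omega)
  have h2 : ∑ κ ∈ S, ∏ p ∈ P, (Ok T (f κ) p).card ≤ M := by
    refine (sum_le_sum h1).trans ?_
    rw [sum_card_fiberwise_eq_card_filter]
    exact (card_filter_le _ _).trans (by rw [card_range])
  have hprod : (0 : ℝ) < ∏ p ∈ P, (p : ℝ) := prod_pos fun p hp => by exact_mod_cast (hmem p hp).1.pos
  have h3 : ∑ κ ∈ S, ∏ p ∈ P, ((Ok T (f κ) p).card : ℝ) / p =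
      (∑ κ ∈ S, ∏ p ∈ P, ((Ok T (f κ) p).card : ℝ)) / ∏ p ∈ P, (p : ℝ) := by
    rw [sum_div]
    refine sum_congr rfl fun κ _ => ?_
    rw [prod_div_distrib]
  rw [h3, div_le_iff₀ hprod]
  have h4 : ((∑ κ ∈ S, ∏ p ∈ P, (Ok T (f κ) p).card : ℕ) : ℝ) ≤ (M : ℝ) := by exact_mod_cast h2
  rw [hM] at h4
  push_cast at h4
  exact h4

open Classical in
/-- the classes modulo a prime `p` which are not `± δ` -/
noncomputable def Av (δ p : ℕ) : Finset ℕ := (range p).filter (fun t => t ≠ δ ∧ t ≠ p - δ)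

theorem av_card {δ p : ℕ} (h1 : 1 ≤ δ) (h2 : 2 * δ < p) : (Av δ p).card = p - 2 := by
  classical
  have e : Av δ p = (range p) \ {δ, p - δ} := by
    unfold Av
    ext t
    rw [mem_filter, mem_sdiff, mem_insert, mem_singleton]
    tauto
  rw [e, card_sdiff_of_subset, card_range, card_pair (by omega)]
  intro t ht
  rw [mem_insert, mem_singleton] at ht
  rw [mem_range]
  omega

theorem mem_av {δ p N : ℕ} (h1 : 1 ≤ δ) (h2 : 2 * δ < p) (h3 : ¬ (p : ℤ) ∣ (N : ℤ) - δ) (h4 : ¬ (p : ℤ) ∣ (N : ℤ) + δ) :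
    N % p ∈ Av δ p := by
  unfold Av
  rw [mem_filter, mem_range]
  refine ⟨Nat.mod_lt _ (by omega), fun h => h3 ?_, fun h => h4 ?_⟩
  · have h5 := mod_congr N p
    rw [h] at h5
    have := (dvd_neg (a := (p : ℤ))).2 h5
    have e : -(((δ : ℕ) : ℤ) - (N : ℤ)) = (N : ℤ) - δ := by ring
    rwa [e] at this
  · have h5 := mod_congr N p
    rw [h, Nat.cast_sub (by omega)] at h5
    have h6 := dvd_sub (dvd_refl (p : ℤ)) h5
    have e : (p : ℤ) - ((p : ℤ) - (δ : ℤ) - (N : ℤ)) = (N : ℤ) + δ := by ring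
    rwa [e] at h6

open Classical in
/-- **the number of the `N` with a short path which end at two numbers without small prime factors** -/
theorem core (hLS : S_LS) (hCRT : S_CRT) (X H w Q Z y : ℕ) (D : ℝ) (hH : 1 ≤ H) (hw : 1 ≤ w) (hwz : w ≤ 6 * H + 1) (hQ1 : 1 ≤ Q) (hZ : 2 ≤ Z)
    (hQ : ∀ p j : ℕ, p.Prime → p ≤ w → p ^ j ≤ 6 * H + 1 → p ^ j ∣ Q)
    (hQ2 : ∀ p : ℕ, p.Prime → w < p → ¬ p ∣ Q) (hz : 6 * H + 1 < (w + 1) ^ 2)
    (hy : ∑ p ∈ (Ioc (6 * H + 1) y).filter Nat.Prime, 2 / (p : ℝ) * Real.log p ≤ D)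
    (hD : 2 * ((H : ℝ) / w * Real.log (6 * H + 1) + 2 * (6 * H + 1) / w * Real.log (6 * H + 1) + D) ≤ Real.log Z)
    (F : Finset ℕ) (hF : ∀ N ∈ F, 1 ≤ N ∧ N ≤ X ∧ 1 ≤ E (N : ℤ) (4 * H + 1) ∧ E (N : ℤ) (4 * H + 1) ≤ H ∧
      ∀ p : ℕ, p.Prime → 6 * H + 1 < p → p ≤ y → ¬ (p : ℤ) ∣ (N : ℤ) - E (N : ℤ) (4 * H + 1) ∧
        ¬ (p : ℤ) ∣ (N : ℤ) + E (N : ℤ) (4 * H + 1)) :
    (F.card : ℝ) ≤ 12 * ((X : ℝ) + Q + Q * (Z : ℝ) ^ 2) *
      ∏ p ∈ (Ioc (6 * H + 1) y).filter Nat.Prime, (1 - 2 / (p : ℝ)) := by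
  obtain ⟨T, hT⟩ : ∃ T : ℕ, T = 4 * H + 1 := ⟨_, rfl⟩
  obtain ⟨z, hzz⟩ : ∃ z : ℕ, z = 6 * H + 1 := ⟨_, rfl⟩
  rw [← hT] at hF
  have hzr : (z : ℝ) = 6 * H + 1 := by rw [hzz]; push_cast; ring
  rw [← hzr] at hD
  rw [← hzz] at hF hQ hz hy hwz ⊢
  obtain ⟨P1, hP1⟩ : ∃ P1 : Finset ℕ, P1 = (Ioc w z).filter Nat.Prime := ⟨_, rfl⟩
  obtain ⟨P2, hP2⟩ : ∃ P2 : Finset ℕ, P2 = (Ioc z y).filter Nat.Prime := ⟨_, rfl⟩
  rw [← hP2] at hy ⊢
  have m1 : ∀ p ∈ P1, p.Prime ∧ w < p ∧ p ≤ z := by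
    intro p hp
    rw [hP1, mem_filter, mem_Ioc] at hp
    exact ⟨hp.2, hp.1⟩
  have m2 : ∀ p ∈ P2, p.Prime ∧ z < p ∧ p ≤ y := by
    intro p hp
    rw [hP2, mem_filter, mem_Ioc] at hp
    exact ⟨hp.2, hp.1⟩
  have hV0 : ∀ p ∈ P2, 0 ≤ 1 - 2 / (p : ℝ) := by
    intro p hp
    have h1 := m2 p hp
    have h2 : (2 : ℝ) ≤ p := by exact_mod_cast h1.1.two_le
    rw [sub_nonneg, div_le_one (by linarith)]
    exact h2
  obtain ⟨V, hV⟩ : ∃ V : ℝ, V = ∏ p ∈ P2, (1 - 2 / (p : ℝ)) := ⟨_, rfl⟩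
  have hV0' : 0 ≤ V := by rw [hV]; exact prod_nonneg hV0
  rw [← hV]
  -- the keys
  obtain ⟨S, hS⟩ : ∃ S : Finset (ℕ × (Fin (T + 1) → ℕ)), S = F.image (key Q T) := ⟨_, rfl⟩
  have hch : ∀ κ : ℕ × (Fin (T + 1) → ℕ), ∃ N : ℕ, κ ∈ S → N ∈ F ∧ key Q T N = κ := by
    intro κ
    by_cases hκ : κ ∈ S
    · have := hκ
      rw [hS, mem_image] at this
      obtain ⟨N, hN1, hN2⟩ := this
      exact ⟨N, fun _ => ⟨hN1, hN2⟩⟩
    · exact ⟨0, fun h => absurd h hκ⟩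
  choose f hf using hch
  have hQr : (0 : ℝ) < Q := by exact_mod_cast hQ1
  -- a fiber
  have hfib : ∀ κ ∈ S, ((F.filter (fun N => key Q T N = κ)).card : ℝ) ≤
      12 * ((X : ℝ) / Q + 1 + (Z : ℝ) ^ 2) * ((∏ p ∈ P1, ((Ok T (f κ) p).card : ℝ) / p) * V) := by
    intro κ hκ
    obtain ⟨hN0, hk⟩ := hf κ hκ
    obtain ⟨N₀, hN₀⟩ : ∃ N₀ : ℕ, N₀ = f κ := ⟨_, rfl⟩
    rw [← hN₀] at hN0 hk ⊢
    obtain ⟨-, -, hE1, hE2, -⟩ := hF N₀ hN0
    obtain ⟨δ, hδ⟩ : ∃ δ : ℕ, δ = E (N₀ : ℤ) T := ⟨_, rfl⟩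
    rw [← hδ] at hE1 hE2
    have hdisj : Disjoint P1 P2 := by
      rw [disjoint_left]
      intro p h1 h2
      have := m1 p h1
      have := m2 p h2
      omega
    have hsz := size (T := T) (z := z) (w := w) (N₀ := N₀) hw (by omega) (by omega) hz (by rw [← hδ]; omega)
    rw [← hP1, ← hδ] at hsz
    have hR2 : ∀ p ∈ P2, ((Av δ p).card : ℝ) = p - 2 := by
      intro p hp
      have h1 := m2 p hp
      rw [av_card hE1 (by omega), Nat.cast_sub h1.1.two_le]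
      norm_num
    have h1 := hLS X Q (N₀ % Q) Z (P1 ∪ P2) (fun p => if p ≤ z then Ok T N₀ p else Av δ p)
      (F.filter (fun N => key Q T N = κ)) hQ1 hZ (by
        intro p hp
        rw [mem_union] at hp
        rcases hp with hp | hp
        · have h2 := m1 p hp
          refine ⟨h2.1, hQ2 p h2.1 h2.2.1, ?_⟩
          simp only [if_pos h2.2.2]
          exact ok_card_le T N₀ p
        · have h2 := m2 p hp
          refine ⟨h2.1, hQ2 p h2.1 (by omega), ?_⟩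
          have h3 : ¬ p ≤ z := by omega
          simp only [if_neg h3]
          rw [av_card hE1 (by omega)]
          omega) (by
        intro N hN
        rw [mem_filter] at hN
        have := hF N hN.1
        rw [mem_Icc]
        exact ⟨this.1, this.2.1⟩) (by
        intro N hN
        rw [mem_filter] at hN
        exact (key_eq (hN.2.trans hk.symm)).1) (by
        intro N hN p hp
        rw [mem_filter] at hN
        have h2 := (key_eq (hN.2.trans hk.symm)).2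
        rw [mem_union] at hp
        rcases hp with hp | hp
        · have h3 := m1 p hp
          simp only [if_pos h3.2.2]
          exact ok_self h3.1.pos h2
        · have h3 := m2 p hp
          have h4 : ¬ p ≤ z := by omega
          simp only [if_neg h4]
          have h5 := (hF N hN.1).2.2.2.2 p h3.1 h3.2.1 h3.2.2
          rw [h2 T le_rfl, ← hδ] at h5
          exact mem_av hE1 (by omega) h5.1 h5.2) (by
        rw [sum_union hdisj]
        have e1 : ∑ p ∈ P1, (((p : ℝ) - (((fun p => if p ≤ z then Ok T N₀ p else Av δ p) p : Finset ℕ).card : ℕ)) / p) *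
            Real.log p = ∑ p ∈ P1, (((p : ℝ) - (Ok T N₀ p).card) / p) * Real.log p := by
          refine sum_congr rfl fun p hp => ?_
          simp only [if_pos (m1 p hp).2.2]
        have e2 : ∑ p ∈ P2, (((p : ℝ) - (((fun p => if p ≤ z then Ok T N₀ p else Av δ p) p : Finset ℕ).card : ℕ)) / p) *
            Real.log p = ∑ p ∈ P2, 2 / (p : ℝ) * Real.log p := by
          refine sum_congr rfl fun p hp => ?_
          have h4 : ¬ p ≤ z := by have := m2 p hp; omega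
          simp only [if_neg h4]
          rw [hR2 p hp]
          ring
        rw [e1, e2]
        refine le_trans ?_ hD
        have hlz : 0 ≤ Real.log z := Real.log_nonneg (by exact_mod_cast (by omega : 1 ≤ z))
        have hwr : (0 : ℝ) < w := by exact_mod_cast hw
        have h5 : (δ : ℝ) / w * Real.log z ≤ (H : ℝ) / w * Real.log z := by
          apply mul_le_mul_of_nonneg_right _ hlz
          apply div_le_div_of_nonneg_right _ hwr.le
          exact_mod_cast hE2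
        linarith)
    refine h1.trans (le_of_eq ?_)
    congr 1
    rw [prod_union hdisj]
    congr 1
    · refine prod_congr rfl fun p hp => ?_
      simp only [if_pos (m1 p hp).2.2]
    · rw [hV]
      refine prod_congr rfl fun p hp => ?_
      have h3 := m2 p hp
      have h4 : ¬ p ≤ z := by omega
      simp only [if_neg h4]
      rw [hR2 p hp]
      have : (p : ℝ) ≠ 0 := by exact_mod_cast h3.1.ne_zero
      field_simp
  -- the sum
  have hcard : (F.card : ℝ) = ∑ κ ∈ S, ((F.filter (fun N => key Q T N = κ)).card : ℝ) := by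
    have h1 : F.card = ∑ κ ∈ S, (F.filter (fun N => key Q T N = κ)).card := by
      rw [hS]
      exact card_eq_sum_card_image (key Q T) F
    rw [h1]
    push_cast
    rfl
  rw [hcard]
  have hsp := sum_paths hCRT T z w Q hQ1 hQ hQ2 hz S f (fun κ hκ => by
    obtain ⟨hN0, hk⟩ := hf κ hκ
    have := hF (f κ) hN0
    exact ⟨hk, by omega⟩)
  rw [← hP1] at hsp
  calc ∑ κ ∈ S, ((F.filter (fun N => key Q T N = κ)).card : ℝ)
      ≤ ∑ κ ∈ S, 12 * ((X : ℝ) / Q + 1 + (Z : ℝ) ^ 2) * ((∏ p ∈ P1, ((Ok T (f κ) p).card : ℝ) / p) * V) :=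
        sum_le_sum hfib
    _ = 12 * ((X : ℝ) / Q + 1 + (Z : ℝ) ^ 2) * V * ∑ κ ∈ S, ∏ p ∈ P1, ((Ok T (f κ) p).card : ℝ) / p := by
        rw [mul_sum]
        refine sum_congr rfl fun κ _ => ?_
        ring
    _ ≤ 12 * ((X : ℝ) / Q + 1 + (Z : ℝ) ^ 2) * V * Q := by
        apply mul_le_mul_of_nonneg_left hsp
        positivity
    _ = 12 * ((X : ℝ) + Q + Q * (Z : ℝ) ^ 2) * V := by
        field_simp

end Pool.Agent.L7h79.GD
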