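import Pool.Agent.L7h79.GD.Stm

/-!
# The gcd recursion for Goldbach pairs: the Chinese remainder theorem
-/

set_option autoImplicit false

namespace Pool.Agent.L7h79.GD

open Finset

/-- **CRT** -/
theorem crt : S_CRT := by
  classical
  intro Q r P A hQ hr
  induction P using Finset.induction_on with
  | empty =>
    intro _
    rw [prod_empty, prod_empty, mul_one]
    apply Nat.one_le_iff_ne_zero.2
    apply (card_pos.2 ⟨r, ?_⟩).ne'
    rw [mem_filter, mem_range]
    exact ⟨hr, Nat.mod_eq_of_lt hr, fun p hp => absurd hp (notMem_empty p)⟩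
  | insert a P ha ih =>
    intro hP
    have h1 := ih (fun p hp => hP p (mem_insert_of_mem hp))
    have h2 := hP a (mem_insert_self _ _)
    rw [prod_insert ha, prod_insert ha]
    obtain ⟨M, hM⟩ : ∃ M : ℕ, M = Q * ∏ p ∈ P, p := ⟨_, rfl⟩
    rw [← hM] at h1
    have hMM : Q * (a * ∏ p ∈ P, p) = M * a := by rw [hM]; ring
    rw [hMM]
    have hco : Nat.Coprime M a := by
      rw [hM]
      apply Nat.Coprime.mul_left
      · exact ((Nat.Prime.coprime_iff_not_dvd h2.1).2 h2.2.1).symm
      · apply Nat.Coprime.prod_left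
        intro p hp
        rw [Nat.coprime_primes (hP p (mem_insert_of_mem hp)).1 h2.1]
        rintro rfl
        exact ha hp
    have hM0 : M ≠ 0 := by
      rw [hM]
      apply mul_ne_zero (by omega)
      exact prod_ne_zero_iff.2 fun p hp => (hP p (mem_insert_of_mem hp)).1.ne_zero
    obtain ⟨B, hB⟩ : ∃ B : Finset ℕ, B = (range M).filter (fun x => x % Q = r ∧ ∀ p ∈ P, x % p ∈ A p) := ⟨_, rfl⟩
    rw [← hB] at h1
    rw [mul_comm]
    calc (∏ p ∈ P, (A p).card) * (A a).card ≤ B.card * (A a).card := Nat.mul_le_mul_right _ h1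
      _ = (B ×ˢ A a).card := (card_product _ _).symm
      _ ≤ _ := ?_
    refine card_le_card_of_injOn (fun q => (Nat.chineseRemainder hco q.1 q.2 : ℕ)) ?_ ?_
    · rintro ⟨x, t⟩ hq
      rw [mem_coe, mem_product] at hq
      obtain ⟨hx, ht⟩ := hq
      simp only at hx ht
      rw [hB, mem_filter, mem_range] at hx
      obtain ⟨c, hc⟩ : ∃ c : ℕ, c = (Nat.chineseRemainder hco x t : ℕ) := ⟨_, rfl⟩
      rw [mem_coe]
      show (Nat.chineseRemainder hco x t : ℕ) ∈ _
      have hc1 := (Nat.chineseRemainder hco x t).2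
      rw [← hc] at hc1 ⊢
      have ht' : t < a := mem_range.1 (h2.2.2 ht)
      rw [mem_filter, mem_range]
      refine ⟨?_, ?_, ?_⟩
      · rw [hc]
        exact Nat.chineseRemainder_lt_mul hco x t hM0 h2.1.ne_zero
      · have h3 : c ≡ x [MOD Q] := hc1.1.of_dvd (by rw [hM]; exact dvd_mul_right _ _)
        have h4 : c % Q = x % Q := h3
        rw [h4]
        exact hx.2.1
      · intro p hp
        rw [mem_insert] at hp
        rcases hp with rfl | hp
        · have h4 : c % p = t % p := hc1.2
          rw [h4, Nat.mod_eq_of_lt ht']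
          exact ht
        · have h3 : c ≡ x [MOD p] := hc1.1.of_dvd (by rw [hM]; exact (dvd_prod_of_mem _ hp).mul_left _)
          have h4 : c % p = x % p := h3
          rw [h4]
          exact hx.2.2 p hp
    · rintro ⟨x, t⟩ hq ⟨x', t'⟩ hq' h
      rw [mem_coe, mem_product] at hq hq'
      simp only at hq hq' h
      have h3 := (Nat.chineseRemainder hco x t).2
      have h4 := (Nat.chineseRemainder hco x' t').2
      rw [h] at h3
      have hx := hq.1
      have hx' := hq'.1
      rw [hB, mem_filter, mem_range] at hx hx'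
      have ht := mem_range.1 (h2.2.2 hq.2)
      have ht' := mem_range.1 (h2.2.2 hq'.2)
      have h5 : x ≡ x' [MOD M] := h3.1.symm.trans h4.1
      have h6 : t ≡ t' [MOD a] := h3.2.symm.trans h4.2
      rw [Nat.ModEq, Nat.mod_eq_of_lt hx.1, Nat.mod_eq_of_lt hx'.1] at h5
      rw [Nat.ModEq, Nat.mod_eq_of_lt ht, Nat.mod_eq_of_lt ht'] at h6
      rw [h5, h6]

end Pool.Agent.L7h79.GD
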