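import Pool.Agent.L7h79.GD.Path

/-!
# The gcd recursion for Goldbach pairs: the path is determined by the classes modulo primes
-/

set_option autoImplicit false

namespace Pool.Agent.L7h79.GD

open Finset

/-- the number which the gcd at the step `m` divides -/
def md (m d : ℕ) : ℕ := if m % 2 = 0 then m else m + 2 * d

theorem md_le (m d : ℕ) : md m d ≤ m + 2 * d := by
  unfold md
  split_ifs <;> omega

theorem md_pos {m d : ℕ} (hm : 1 ≤ m) : 1 ≤ md m d := by
  unfold md
  split_ifs <;> omega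

theorem dvd_md {x : ℤ} {m d q : ℕ} (h : q ∣ G x m d) : q ∣ md m d := by
  unfold md
  split_ifs with h2
  · exact ((dvd_G_even h2).1 h).2
  · exact ((dvd_G_odd h2).1 h).2

theorem G_congr {x y : ℤ} {m d q : ℕ} (h : (q : ℤ) ∣ x - y) : q ∣ G x m d ↔ q ∣ G y m d := by
  by_cases h2 : m % 2 = 0
  · rw [dvd_G_even h2, dvd_G_even h2]
    constructor
    · rintro ⟨h3, h4⟩
      refine ⟨?_, h4⟩
      have := dvd_sub h3 h
      have e : x - (d : ℤ) - (x - y) = y - d := by ring
      rwa [e] at this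
    · rintro ⟨h3, h4⟩
      refine ⟨?_, h4⟩
      have := dvd_add h3 h
      have e : y - (d : ℤ) + (x - y) = x - d := by ring
      rwa [e] at this
  · rw [dvd_G_odd h2, dvd_G_odd h2]
    constructor
    · rintro ⟨h3, h4⟩
      refine ⟨?_, h4⟩
      have := dvd_sub h3 h
      have e : x + (d : ℤ) - (x - y) = y + d := by ring
      rwa [e] at this
    · rintro ⟨h3, h4⟩
      refine ⟨?_, h4⟩
      have := dvd_add h3 h
      have e : y + (d : ℤ) + (x - y) = x + d := by ring
      rwa [e] at this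

theorem mod_congr (x p : ℕ) : (p : ℤ) ∣ ((x % p : ℕ) : ℤ) - (x : ℤ) := by
  have h := (Nat.mod_modEq x p).symm.dvd
  exact h

open Classical in
/-- the classes modulo `p` which are allowed for the path of `N₀` -/
noncomputable def Ok (T N₀ p : ℕ) : Finset ℕ :=
  (range p).filter (fun t => ∀ k, 1 ≤ k → k < T →
    (p ∣ G (t : ℤ) (k + 1) (E (N₀ : ℤ) k) ↔ p ∣ G (N₀ : ℤ) (k + 1) (E (N₀ : ℤ) k)))

theorem ok_self {T N₀ N p : ℕ} (hp : 0 < p) (h : ∀ k, k ≤ T → E (N : ℤ) k = E (N₀ : ℤ) k) : N % p ∈ Ok T N₀ p := by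
  unfold Ok
  rw [mem_filter, mem_range]
  refine ⟨Nat.mod_lt _ hp, fun k hk1 hkT => ?_⟩
  rw [G_congr (mod_congr N p), G_eq (N₀ : ℤ) k hk1, ← h k (by omega), G_eq (N : ℤ) k hk1, h k (by omega),
    h (k + 1) (by omega)]

/-- the path is determined by the classes -/
theorem det {T z w Q N₀ x : ℕ} (hQ : ∀ p j : ℕ, p.Prime → p ≤ w → p ^ j ≤ z → p ^ j ∣ Q) (hz : z < (w + 1) ^ 2)
    (hT : T + 2 * E (N₀ : ℤ) T ≤ z) (hx : x % Q = N₀ % Q)
    (hA : ∀ p, p.Prime → w < p → p ≤ z → x % p ∈ Ok T N₀ p) :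
    ∀ k, k ≤ T → E (x : ℤ) k = E (N₀ : ℤ) k := by
  intro k
  induction k with
  | zero => intro _; rfl
  | succ k ih =>
    intro hkT
    have ih := ih (by omega)
    rcases Nat.eq_zero_or_pos k with h0 | h0
    · subst h0
      rfl
    rw [E_succ (x : ℤ) k h0, E_succ (N₀ : ℤ) k h0, ih]
    have hm : md (k + 1) (E (N₀ : ℤ) k) ≤ z := by
      have h1 := md_le (k + 1) (E (N₀ : ℤ) k)
      have h2 : E (N₀ : ℤ) k ≤ E (N₀ : ℤ) T := E_mono _ (by omega)
      omega
    have hm1 : 1 ≤ md (k + 1) (E (N₀ : ℤ) k) := md_pos (by omega)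
    have key : ∀ p j : ℕ, p.Prime → (p ^ j ∣ G (x : ℤ) (k + 1) (E (N₀ : ℤ) k) ↔
        p ^ j ∣ G (N₀ : ℤ) (k + 1) (E (N₀ : ℤ) k)) := by
      intro p j hp
      by_cases hpj : p ^ j ∣ md (k + 1) (E (N₀ : ℤ) k)
      · have hle : p ^ j ≤ z := (Nat.le_of_dvd (by omega) hpj).trans hm
        rcases Nat.lt_or_ge w p with hw | hw
        · -- a large prime
          rcases Nat.lt_or_ge j 2 with hj | hj
          · have hj01 : j = 0 ∨ j = 1 := by omega
            rcases hj01 with rfl | rfl
            · simp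
            · rw [pow_one] at hle ⊢
              have h1 := hA p hp hw hle
              unfold Ok at h1
              rw [mem_filter] at h1
              have h2 := h1.2 k (by omega) (by omega)
              rwa [G_congr (mod_congr x p)] at h2
          · exfalso
            have h1 : (w + 1) ^ 2 ≤ p ^ 2 := Nat.pow_le_pow_left (by omega) 2
            have h2 : p ^ 2 ≤ p ^ j := Nat.pow_le_pow_right hp.pos hj
            omega
        · -- a small prime
          have h1 := hQ p j hp hw hle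
          apply G_congr
          have h2 : ((Q : ℕ) : ℤ) ∣ (x : ℤ) - N₀ := by
            have : N₀ ≡ x [MOD Q] := hx.symm
            exact this.dvd
          exact (Int.natCast_dvd_natCast.2 h1).trans h2
      · constructor
        · intro h
          exact absurd (dvd_md h) hpj
        · intro h
          exact absurd (dvd_md h) hpj
    have e : G (x : ℤ) (k + 1) (E (N₀ : ℤ) k) = G (N₀ : ℤ) (k + 1) (E (N₀ : ℤ) k) := by
      apply Nat.dvd_antisymm
      · rw [Nat.dvd_iff_prime_pow_dvd_dvd]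
        intro p j hp h
        exact (key p j hp).1 h
      · rw [Nat.dvd_iff_prime_pow_dvd_dvd]
        intro p j hp h
        exact (key p j hp).2 h
    rw [e]

end Pool.Agent.L7h79.GD
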