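import Pool.Agent.L7h79.GD.Stm
import Pool.Agent.TH314.ET.Energy

/-!
# The gcd recursion for Goldbach pairs: the large sieve in a progression
-/

set_option autoImplicit false

namespace Pool.Agent.L7h79.GD

open Finset
open Pool.Agent.TH314.ET (Sf ind mont_sqf ind_summable Sf_ind_zero ne_zero_mem Sf_ind)
open Pool.Agent.Helper112

/-- the logarithmic average over the subsets -/
theorem sum_powerset_log (P : Finset ℕ) (h l : ℕ → ℝ) (hh : ∀ p ∈ P, 0 ≤ h p) :
    ∑ B ∈ P.powerset, (∏ p ∈ B, h p) * ∑ p ∈ B, l p =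
      (∏ p ∈ P, (1 + h p)) * ∑ p ∈ P, h p / (1 + h p) * l p := by
  classical
  induction P using Finset.induction_on with
  | empty => simp
  | insert a P ha ih =>
    have h1 := ih (fun p hp => hh p (mem_insert_of_mem hp))
    have ha0 := hh a (mem_insert_self _ _)
    rw [sum_powerset_insert ha, prod_insert ha, sum_insert ha]
    have h2 : ∀ B ∈ P.powerset, (∏ p ∈ insert a B, h p) * ∑ p ∈ insert a B, l p =
        h a * l a * ∏ p ∈ B, h p + h a * ((∏ p ∈ B, h p) * ∑ p ∈ B, l p) := by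
      intro B hB
      have h3 : a ∉ B := fun h4 => ha (mem_powerset.1 hB h4)
      rw [prod_insert h3, sum_insert h3]
      ring
    rw [sum_congr rfl h2, sum_add_distrib, ← mul_sum, ← mul_sum, h1, ← prod_one_add]
    have h5 : 1 + h a ≠ 0 := by linarith
    field_simp
    ring

/-- **the large sieve**, with the sum over the subsets with a product at most `Z` -/
theorem sieve {F : Finset ℕ} {M : ℕ} (hF : F ⊆ Icc 1 M) (hF0 : F.Nonempty) (Z : ℕ) (P : Finset ℕ) (R : ℕ → Finset ℕ)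
    (hP : ∀ p ∈ P, p.Prime ∧ 0 < (R p).card ∧ (R p).card ≤ p) (hR : ∀ N ∈ F, ∀ p ∈ P, N % p ∈ R p) :
    (F.card : ℝ) * ∑ B ∈ P.powerset.filter (fun B => ∏ p ∈ B, p ≤ Z), ∏ p ∈ B, (((p : ℝ) - (R p).card) / (R p).card) ≤
      6 * ((M : ℝ) + (Z : ℝ) ^ 2) := by
  classical
  have hcard : (0 : ℝ) < F.card := by exact_mod_cast hF0.card_pos
  have hLS := additive_large_sieve M Z (ind F)
  have h1 : ∑ n ∈ Icc 1 M, ‖ind F n‖ ^ 2 = F.card := by
    have h2 : ∀ n ∈ Icc 1 M, ‖ind F n‖ ^ 2 = if n ∈ F then (1 : ℝ) else 0 := by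
      intro n _
      unfold ind
      split_ifs <;> simp
    rw [sum_congr rfl h2, ← sum_filter, sum_const, nsmul_eq_mul, mul_one]
    congr 2
    ext n
    rw [mem_filter]
    exact ⟨fun h => h.2, fun h => ⟨hF h, h⟩⟩
  rw [h1] at hLS
  have h2 : ∀ f a : ℕ, ‖∑ n ∈ Icc 1 M, ind F n * ee (n * a / f)‖ ^ 2 = ‖Sf (ind F) (a / f + 0)‖ ^ 2 := by
    intro f a
    congr 2
    rw [Sf_ind, ← sum_filter_add_sum_filter_not (Icc 1 M) (fun n => n ∈ F)]
    have h3 : ∑ n ∈ (Icc 1 M).filter (fun n => n ∉ F), ind F n * ee (n * a / f) = 0 := by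
      apply sum_eq_zero
      intro n hn
      have := (mem_filter.1 hn).2
      simp [ind, this]
    rw [h3, add_zero]
    have h4 : (Icc 1 M).filter (fun n => n ∈ F) = F := by
      ext n
      rw [mem_filter]
      exact ⟨fun h => h.2, fun h => ⟨hF h, h⟩⟩
    rw [h4]
    refine sum_congr rfl fun n hn => ?_
    simp only [ind, if_pos hn, one_mul]
    congr 1
    rw [add_zero, mul_div_assoc]
  have h3 : ∑ f ∈ Icc 1 Z, ∑ a ∈ (range f).filter (fun a => a.Coprime f),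
      ‖∑ n ∈ Icc 1 M, ind F n * ee (n * a / f)‖ ^ 2 =
      ∑ f ∈ Icc 1 Z, ∑ a ∈ (range f).filter (fun a => a.Coprime f), ‖Sf (ind F) (a / f + 0)‖ ^ 2 :=
    sum_congr rfl fun f _ => sum_congr rfl fun a _ => h2 f a
  rw [h3] at hLS
  -- the subsets
  have hpf : ∀ B ∈ P.powerset, (∏ p ∈ B, p).primeFactors = B ∧ Squarefree (∏ p ∈ B, p) := by
    intro B hB
    have hB' := mem_powerset.1 hB
    have hpr : ∀ p ∈ B, p.Prime := fun p hp => (hP p (hB' hp)).1
    constructor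
    · exact Nat.primeFactors_prod hpr
    · refine Finset.squarefree_prod_of_pairwise_isCoprime (fun p hp q hq hpq => ?_) (fun p hp => (hpr p hp).squarefree)
      exact Nat.coprime_iff_isRelPrime.1 ((Nat.coprime_primes (hpr p hp) (hpr q hq)).2 hpq)
  obtain ⟨W, hW⟩ : ∃ W : Finset (Finset ℕ), W = P.powerset.filter (fun B => ∏ p ∈ B, p ≤ Z) := ⟨_, rfl⟩
  rw [← hW]
  have hWm : ∀ B ∈ W, B ∈ P.powerset ∧ ∏ p ∈ B, p ≤ Z := by
    intro B hB
    rw [hW, mem_filter] at hB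
    exact hB
  obtain ⟨gf, hgf⟩ : ∃ gf : ℕ → ℝ, gf = fun f => ∑ a ∈ (range f).filter (fun a => a.Coprime f),
    ‖Sf (ind F) (a / f + 0)‖ ^ 2 := ⟨_, rfl⟩
  have hgf0 : ∀ f, 0 ≤ gf f := by
    intro f
    rw [hgf]
    exact sum_nonneg fun a _ => by positivity
  have h4 : ∀ B ∈ W, (∏ p ∈ B, (((p : ℝ) - (R p).card) / (R p).card)) * (F.card : ℝ) ^ 2 ≤ gf (∏ p ∈ B, p) := by
    intro B hB
    obtain ⟨hB1, -⟩ := hWm B hB
    obtain ⟨h5, h6⟩ := hpf B hB1
    have h7 := mont_sqf (ind_summable F) R (∏ p ∈ B, p) h6 (by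
      intro p hp
      rw [h5] at hp
      have h8 := hP p (mem_powerset.1 hB1 hp)
      exact ⟨fun n hn => hR n (ne_zero_mem hn) p (mem_powerset.1 hB1 hp), h8.2⟩) 0
    rw [h5, Sf_ind_zero, Complex.norm_natCast] at h7
    rw [hgf]
    exact h7
  have h5 : ∑ B ∈ W, gf (∏ p ∈ B, p) ≤ ∑ f ∈ Icc 1 Z, gf f := by
    have h6 : ∑ B ∈ W, gf (∏ p ∈ B, p) = ∑ f ∈ W.image (fun B => ∏ p ∈ B, p), gf f := by
      rw [sum_image]
      intro B hB C hC hBC
      have h7 := (hpf B (hWm B hB).1).1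
      have h8 := (hpf C (hWm C hC).1).1
      rw [← h7, ← h8]
      exact congrArg _ hBC
    rw [h6]
    refine sum_le_sum_of_subset_of_nonneg ?_ fun f _ _ => hgf0 f
    intro f hf
    rw [mem_image] at hf
    obtain ⟨B, hB, rfl⟩ := hf
    obtain ⟨hB1, hB2⟩ := hWm B hB
    rw [mem_Icc]
    exact ⟨Nat.one_le_iff_ne_zero.2 (hpf B hB1).2.ne_zero, hB2⟩
  have h6 : (∑ B ∈ W, ∏ p ∈ B, (((p : ℝ) - (R p).card) / (R p).card)) * (F.card : ℝ) ^ 2 ≤
      6 * ((M : ℝ) + (Z : ℝ) ^ 2) * F.card := by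
    rw [sum_mul]
    refine (sum_le_sum h4).trans (h5.trans ?_)
    rw [hgf]
    exact hLS
  refine le_of_mul_le_mul_right ?_ hcard
  linarith [h6, (by ring : (F.card : ℝ) * (∑ B ∈ W, ∏ p ∈ B, (((p : ℝ) - (R p).card) / (R p).card)) * F.card =
    (∑ B ∈ W, ∏ p ∈ B, (((p : ℝ) - (R p).card) / (R p).card)) * (F.card : ℝ) ^ 2)]

/-- Markov's inequality: half of the sum over the subsets comes from the products up to `Z` -/
theorem half (Z : ℕ) (hZ : 2 ≤ Z) (P : Finset ℕ) (c : ℕ → ℝ) (hP : ∀ p ∈ P, p.Prime ∧ 0 < c p ∧ c p ≤ p)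
    (hS : 2 * ∑ p ∈ P, (((p : ℝ) - c p) / p) * Real.log p ≤ Real.log Z) :
    1 / 2 * ∏ p ∈ P, ((p : ℝ) / c p) ≤
      ∑ B ∈ P.powerset.filter (fun B => ∏ p ∈ B, p ≤ Z), ∏ p ∈ B, (((p : ℝ) - c p) / c p) := by
  classical
  have hlZ : 0 < Real.log Z := Real.log_pos (by exact_mod_cast (by omega : 1 < Z))
  have hh : ∀ p ∈ P, 0 ≤ ((p : ℝ) - c p) / c p := by
    intro p hp
    have := hP p hp
    exact div_nonneg (by linarith) this.2.1.le
  have h1 := sum_powerset_log P (fun p => ((p : ℝ) - c p) / c p) (fun p => Real.log p) hh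
  have e1 : ∏ p ∈ P, (1 + ((p : ℝ) - c p) / c p) = ∏ p ∈ P, ((p : ℝ) / c p) := by
    refine prod_congr rfl fun p hp => ?_
    have := (hP p hp).2.1.ne'
    field_simp
    ring
  have e2 : ∑ p ∈ P, ((p : ℝ) - c p) / c p / (1 + ((p : ℝ) - c p) / c p) * Real.log p =
      ∑ p ∈ P, (((p : ℝ) - c p) / p) * Real.log p := by
    refine sum_congr rfl fun p hp => ?_
    have h2 := (hP p hp).2.1.ne'
    have h3 : (p : ℝ) ≠ 0 := by exact_mod_cast (hP p hp).1.ne_zero
    have h4 : 1 + ((p : ℝ) - c p) / c p = p / c p := by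
      field_simp
      ring
    rw [h4]
    field_simp
  have e3 : ∑ B ∈ P.powerset, ∏ p ∈ B, (((p : ℝ) - c p) / c p) = ∏ p ∈ P, ((p : ℝ) / c p) := by
    rw [← e1, prod_one_add]
  rw [e1, e2] at h1
  have hPi : 0 ≤ ∏ p ∈ P, ((p : ℝ) / c p) := prod_nonneg fun p hp =>
    div_nonneg (Nat.cast_nonneg p) (hP p hp).2.1.le
  -- the subsets with a large product
  have h2 : Real.log Z * ∑ B ∈ P.powerset.filter (fun B => ¬ ∏ p ∈ B, p ≤ Z), ∏ p ∈ B, (((p : ℝ) - c p) / c p) ≤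
      ∑ B ∈ P.powerset, (∏ p ∈ B, (((p : ℝ) - c p) / c p)) * ∑ p ∈ B, Real.log p := by
    rw [mul_sum]
    refine le_trans (sum_le_sum fun B hB => ?_) (sum_le_sum_of_subset_of_nonneg (filter_subset _ _) fun B hB _ => ?_)
    · rw [mem_filter, mem_powerset] at hB
      rw [mul_comm]
      apply mul_le_mul_of_nonneg_left
      · have h3 : ∑ p ∈ B, Real.log p = Real.log ((∏ p ∈ B, p : ℕ) : ℝ) := by
          push_cast
          rw [Real.log_prod]
          intro p hp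
          exact_mod_cast (hP p (hB.1 hp)).1.ne_zero
        rw [h3]
        apply Real.log_le_log (by exact_mod_cast (by omega : 0 < Z))
        exact_mod_cast (not_le.1 hB.2).le
      · exact prod_nonneg fun p hp => hh p (hB.1 hp)
    · rw [mem_powerset] at hB
      apply mul_nonneg
      · exact prod_nonneg fun p hp => hh p (hB hp)
      · exact sum_nonneg fun p hp => Real.log_natCast_nonneg p
  rw [h1] at h2
  have h3 := sum_filter_add_sum_filter_not P.powerset (fun B => ∏ p ∈ B, p ≤ Z)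
    (fun B => ∏ p ∈ B, (((p : ℝ) - c p) / c p))
  rw [e3] at h3
  have h4 : Real.log Z * ∑ B ∈ P.powerset.filter (fun B => ¬ ∏ p ∈ B, p ≤ Z), ∏ p ∈ B, (((p : ℝ) - c p) / c p) ≤
      Real.log Z * (1 / 2 * ∏ p ∈ P, ((p : ℝ) / c p)) := by
    refine h2.trans ?_
    have h5 := mul_le_mul_of_nonneg_left hS hPi
    linarith
  have h5 := le_of_mul_le_mul_left h4 hlZ
  linarith

/-- **LS** -/
theorem ls : S_LS := by
  classical
  intro X Q r Z P R F hQ hZ hP hF hFr hFR hS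
  rcases F.eq_empty_or_nonempty with h0 | h0
  · subst h0
    rw [card_empty, Nat.cast_zero]
    apply mul_nonneg
    · positivity
    · exact prod_nonneg fun p _ => by positivity
  -- the quotients
  obtain ⟨F', hF'⟩ : ∃ F' : Finset ℕ, F' = F.image (fun N => N / Q + 1) := ⟨_, rfl⟩
  have hNQ : ∀ N ∈ F, N = Q * (N / Q) + r := by
    intro N hN
    have h1 := Nat.div_add_mod N Q
    rw [hFr N hN] at h1
    exact h1.symm
  have hcard : F'.card = F.card := by
    rw [hF']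
    apply card_image_of_injOn
    intro N hN N' hN' h
    have h1 : N / Q = N' / Q := by simpa using h
    rw [hNQ N hN, hNQ N' hN', h1]
  have hF'0 : F'.Nonempty := by rw [hF']; exact h0.image _
  have hF'sub : F' ⊆ Icc 1 (X / Q + 1) := by
    intro m hm
    rw [hF', mem_image] at hm
    obtain ⟨N, hN, rfl⟩ := hm
    have h1 := mem_Icc.1 (hF hN)
    rw [mem_Icc]
    exact ⟨Nat.le_add_left 1 _, Nat.add_le_add_right (Nat.div_le_div_right h1.2) 1⟩
  have hcls : ∀ p : ℕ, ∃ R' : Finset ℕ, p ∈ P → (R'.card = (R p).card ∧ ∀ N ∈ F, (N / Q + 1) % p ∈ R') := by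
    intro p
    by_cases hp : p ∈ P
    · obtain ⟨hpp, hpQ, hpR⟩ := hP p hp
      obtain ⟨A, hA⟩ : ∃ A : Finset ℕ, A = F.image (fun N => (N / Q + 1) % p) := ⟨_, rfl⟩
      have hAc : A.card ≤ (R p).card := by
        have h1 : Set.InjOn (fun t => (Q * (t + (p - 1)) + r) % p) A := by
          intro t ht t' ht' h
          rw [hA, mem_coe, mem_image] at ht ht'
          obtain ⟨N, -, rfl⟩ := ht
          obtain ⟨N', -, rfl⟩ := ht'
          have h2 : Q * ((N / Q + 1) % p + (p - 1)) + r ≡ Q * ((N' / Q + 1) % p + (p - 1)) + r [MOD p] := h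
          have h3 := Nat.ModEq.add_right_cancel' r h2
          have h4 : Nat.gcd p Q = 1 := (Nat.Prime.coprime_iff_not_dvd hpp).2 hpQ
          have h5 := Nat.ModEq.cancel_left_of_coprime h4 h3
          have h6 := Nat.ModEq.add_right_cancel' (p - 1) h5
          have h7 : (N / Q + 1) % p % p = (N' / Q + 1) % p % p := h6
          rwa [Nat.mod_mod, Nat.mod_mod] at h7
        refine card_le_card_of_injOn (fun t => (Q * (t + (p - 1)) + r) % p) ?_ h1
        intro t ht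
        rw [mem_coe, hA, mem_image] at ht
        obtain ⟨N, hN, rfl⟩ := ht
        have h2 : (Q * ((N / Q + 1) % p + (p - 1)) + r) % p = N % p := by
          have h3 : (N / Q + 1) % p + (p - 1) ≡ (N / Q + 1) + (p - 1) [MOD p] := (Nat.mod_modEq _ _).add_right _
          have h4 : (N / Q + 1) + (p - 1) = N / Q + p := by have := hpp.pos; omega
          rw [h4] at h3
          have h5 : (N / Q + 1) % p + (p - 1) ≡ N / Q [MOD p] := by
            refine h3.trans ?_
            show (N / Q + p) % p = N / Q % p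
            rw [Nat.add_mod_right]
          have h6 := (h5.mul_left Q).add_right r
          rw [← hNQ N hN] at h6
          exact h6
        rw [mem_coe]
        show (Q * ((N / Q + 1) % p + (p - 1)) + r) % p ∈ R p
        rw [h2]
        exact hFR N hN p hp
      obtain ⟨R', hR'1, hR'2⟩ := Infinite.exists_superset_card_eq A _ hAc
      refine ⟨R', fun _ => ⟨hR'2, fun N hN => hR'1 ?_⟩⟩
      rw [hA]
      exact mem_image_of_mem _ hN
    · exact ⟨∅, fun h => absurd h hp⟩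
  choose R' hR' using hcls
  have hpos : ∀ p ∈ P, 0 < (R p).card := by
    intro p hp
    obtain ⟨N, hN⟩ := h0
    exact card_pos.2 ⟨_, hFR N hN p hp⟩
  have h1 := sieve hF'sub hF'0 Z P R' (by
    intro p hp
    rw [(hR' p hp).1]
    exact ⟨(hP p hp).1, hpos p hp, (hP p hp).2.2⟩) (by
    intro m hm p hp
    rw [hF', mem_image] at hm
    obtain ⟨N, hN, rfl⟩ := hm
    exact (hR' p hp).2 N hN)
  have h2 := half Z hZ P (fun p => ((R p).card : ℝ)) (by
    intro p hp
    exact ⟨(hP p hp).1, by exact_mod_cast hpos p hp, by exact_mod_cast (hP p hp).2.2⟩) hS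
  have h3 : ∑ B ∈ P.powerset.filter (fun B => ∏ p ∈ B, p ≤ Z), ∏ p ∈ B, (((p : ℝ) - (R' p).card) / (R' p).card) =
      ∑ B ∈ P.powerset.filter (fun B => ∏ p ∈ B, p ≤ Z), ∏ p ∈ B, (((p : ℝ) - (R p).card) / (R p).card) := by
    refine sum_congr rfl fun B hB => prod_congr rfl fun p hp => ?_
    rw [mem_filter, mem_powerset] at hB
    rw [(hR' p (hB.1 hp)).1]
  rw [h3, hcard] at h1
  have hc : (0 : ℝ) ≤ F.card := Nat.cast_nonneg _
  have h4 := mul_le_mul_of_nonneg_left h2 hc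
  have h5 : ((X / Q + 1 : ℕ) : ℝ) ≤ (X : ℝ) / Q + 1 := by
    push_cast
    linarith [Nat.cast_div_le (m := X) (n := Q) (α := ℝ)]
  obtain ⟨W, hW⟩ : ∃ W : ℝ, W = ∏ p ∈ P, ((p : ℝ) / (R p).card) := ⟨_, rfl⟩
  obtain ⟨W', hW'⟩ : ∃ W' : ℝ, W' = ∏ p ∈ P, (((R p).card : ℝ) / p) := ⟨_, rfl⟩
  have h6 : W * W' = 1 := by
    rw [hW, hW', ← prod_mul_distrib]
    apply prod_eq_one
    intro p hp
    have h7 : ((R p).card : ℝ) ≠ 0 := by exact_mod_cast (hpos p hp).ne'
    have h8 : (p : ℝ) ≠ 0 := by exact_mod_cast (hP p hp).1.ne_zero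
    field_simp
  have h7 : 0 ≤ W' := by
    rw [hW']
    exact prod_nonneg fun p _ => by positivity
  rw [← hW] at h4
  rw [← hW']
  have h8 : (F.card : ℝ) * (1 / 2 * W) ≤ 6 * ((X : ℝ) / Q + 1 + (Z : ℝ) ^ 2) := by
    refine h4.trans (h1.trans ?_)
    linarith
  have h9 := mul_le_mul_of_nonneg_right h8 h7
  have e : (F.card : ℝ) * (1 / 2 * W) * W' = 1 / 2 * F.card * (W * W') := by ring
  rw [e, h6] at h9
  linarith

end Pool.Agent.L7h79.GD
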