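import Pool.Agent.L7h79.GD.Path
import Pool.Agent.R105.GD.Gol

/-!
# The gcd recursion for Goldbach pairs: the path `δ_n` and the recursion
-/

set_option autoImplicit false

namespace Pool.Agent.L7h79.GD

open Finset
open Pool.Agent.R105.GD.Gol (aa gg aa_one aa_rec gg_isLeast gg_primes)

theorem gcd_congr {a b a' b' : ℤ} (h : ∀ p : ℕ, ((p : ℤ) ∣ a ∧ (p : ℤ) ∣ b) ↔ ((p : ℤ) ∣ a' ∧ (p : ℤ) ∣ b')) :
    Int.gcd a b = Int.gcd a' b' :=
  Nat.dvd_antisymm (dvd_gcd_iff'.2 ((h _).1 (dvd_gcd_iff'.1 dvd_rfl)))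
    (dvd_gcd_iff'.2 ((h _).2 (dvd_gcd_iff'.1 dvd_rfl)))

theorem aa_E (N n : ℕ) (hn : 1 ≤ n) : aa N n = (N : ℤ) - n - 1 - E N n := by
  induction n, hn using Nat.le_induction with
  | base =>
    rw [aa_one]
    simp [E]
    ring
  | succ n hn ih =>
    rw [aa_rec N (n + 1) (by omega), Nat.add_sub_cancel, ih]
    have h1 := E_succ (N : ℤ) n hn
    have h2 := G_pos (N : ℤ) (n + 1) (E N n) (by omega)
    have h3 : Int.gcd ((N : ℤ) - n - 1 - E N n)
        ((N : ℤ) - (-1) ^ (n + 1) * ((N : ℤ) - ((n + 1 : ℕ) : ℤ))) = G N (n + 1) (E N n) := by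
      unfold G
      split_ifs with h
      · have h4 : (-1 : ℤ) ^ (n + 1) = 1 := Even.neg_one_pow (Nat.even_iff.2 h)
        rw [h4]
        apply gcd_congr
        intro p
        constructor
        · rintro ⟨h5, h6⟩
          have e1 : (N : ℤ) - 1 * ((N : ℤ) - ((n + 1 : ℕ) : ℤ)) = ((n + 1 : ℕ) : ℤ) := by ring
          rw [e1] at h6
          refine ⟨?_, h6⟩
          have := dvd_add h5 h6
          push_cast at this
          have e2 : (N : ℤ) - n - 1 - E N n + (n + 1) = (N : ℤ) - E N n := by ring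
          rwa [e2] at this
        · rintro ⟨h5, h6⟩
          refine ⟨?_, ?_⟩
          · have := dvd_sub h5 h6
            push_cast at this
            have e2 : (N : ℤ) - E N n - (n + 1) = (N : ℤ) - n - 1 - E N n := by ring
            rwa [e2] at this
          · have e1 : (N : ℤ) - 1 * ((N : ℤ) - ((n + 1 : ℕ) : ℤ)) = ((n + 1 : ℕ) : ℤ) := by ring
            rw [e1]
            exact h6
      · have h4 : (-1 : ℤ) ^ (n + 1) = -1 := Odd.neg_one_pow (Nat.odd_iff.2 (by omega))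
        rw [h4]
        apply gcd_congr
        intro p
        have e1 : (N : ℤ) - -1 * ((N : ℤ) - ((n + 1 : ℕ) : ℤ)) = 2 * N - n - 1 := by push_cast; ring
        rw [e1]
        have e2 : (((n + 1 : ℕ) : ℤ) + 2 * (E N n : ℤ)) = n + 1 + 2 * (E N n : ℤ) := by push_cast; ring
        rw [e2]
        constructor
        · rintro ⟨h5, h6⟩
          have h7 := dvd_sub h6 h5
          have e3 : (2 : ℤ) * N - n - 1 - ((N : ℤ) - n - 1 - E N n) = (N : ℤ) + E N n := by ring
          rw [e3] at h7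
          refine ⟨h7, ?_⟩
          have h8 := dvd_sub h7 h5
          have e4 : (N : ℤ) + E N n - ((N : ℤ) - n - 1 - E N n) = n + 1 + 2 * (E N n : ℤ) := by ring
          rwa [e4] at h8
        · rintro ⟨h5, h6⟩
          have h7 := dvd_sub h5 h6
          have e3 : (N : ℤ) + E N n - (n + 1 + 2 * (E N n : ℤ)) = (N : ℤ) - n - 1 - E N n := by ring
          rw [e3] at h7
          refine ⟨h7, ?_⟩
          have h8 := dvd_add h5 h7
          have e4 : (N : ℤ) + E N n + ((N : ℤ) - n - 1 - E N n) = 2 * N - n - 1 := by ring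
          rwa [e4] at h8
    rw [h3]
    push_cast
    omega

theorem E_gg (N : ℕ) (hN : 3 ≤ N) : N = gg N + 1 + E N (gg N) := by
  have h1 := (gg_isLeast N hN).1
  have h2 := aa_E N (gg N) (by have := h1.1; omega)
  rw [h1.2] at h2
  omega

/-- the path of an `N` with a small defect -/
theorem fin_path (N H : ℕ) (hN : 2208 ≤ N) (hH : 9 * H ≤ 2 * N) (hT : 4 * H + 1 + H ≤ N)
    (h2 : gg N + 2 ≤ N) (hH2 : N ≤ gg N + H) :
    1 ≤ E N (4 * H + 1) ∧ E N (4 * H + 1) + 1 ≤ H ∧ E N (4 * H + 1) + 1 = N - gg N ∧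
      Nat.Prime (N - E N (4 * H + 1)) ∧ Nat.Prime (N + E N (4 * H + 1)) := by
  have h3 := E_gg N (by omega)
  have hg2 := (gg_isLeast N (by omega)).1.1
  obtain ⟨e, he1, heg, he4, hE⟩ := wait (N : ℤ) (gg N) (by omega)
  have h4 : E N (4 * H + 1) = E N (gg N) := by
    apply le_antisymm (E_mono _ (by omega))
    rw [← hE]
    exact E_mono _ (by omega)
  rw [h4]
  have h5 := gg_primes N hN (by omega)
  refine ⟨by omega, by omega, by omega, ?_, ?_⟩
  · have e1 : N - E N (gg N) = gg N + 1 := by omega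
    rw [e1]
    exact h5.1
  · have e1 : N + E N (gg N) = 2 * N - gg N - 1 := by omega
    rw [e1]
    exact h5.2

end Pool.Agent.L7h79.GD
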