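import Pool.Agent.L7h79.GD.Stm
import Pool.Agent.Helper559.Mertens
import Pool.Agent.Helper112.Lp.MertensLog

/-!
# The gcd recursion for Goldbach pairs: the theorems of Mertens
-/

set_option autoImplicit false

namespace Pool.Agent.L7h79.GD

open Finset

theorem split_Ioc (f : ℕ → ℝ) {z y : ℕ} (hzy : z ≤ y) :
    ∑ p ∈ (Icc 1 y).filter Nat.Prime, f p = ∑ p ∈ (Icc 1 z).filter Nat.Prime, f p +
      ∑ p ∈ (Ioc z y).filter Nat.Prime, f p := by
  rw [← sum_union]
  · congr 1
    ext p
    rw [mem_union, mem_filter, mem_filter, mem_filter, mem_Icc, mem_Icc, mem_Ioc]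
    constructor
    · rintro ⟨h1, h2⟩
      by_cases h : p ≤ z
      · exact Or.inl ⟨⟨h1.1, h⟩, h2⟩
      · exact Or.inr ⟨⟨by omega, h1.2⟩, h2⟩
    · rintro (h | h)
      · exact ⟨⟨h.1.1, by omega⟩, h.2⟩
      · exact ⟨⟨by omega, h.1.2⟩, h.2⟩
  · rw [disjoint_left]
    intro p h1 h2
    rw [mem_filter, mem_Icc] at h1
    rw [mem_filter, mem_Ioc] at h2
    omega

/-- **MERT** -/
theorem mert : S_MERT := by
  obtain ⟨C, hC, h⟩ := Pool.Agent.Helper559.mertens
  obtain ⟨D, hD, h'⟩ := Pool.Agent.Helper112.LP.mertens_log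
  refine ⟨Real.exp (4 * C) + 2 * D, ?_, fun z y hz hzy => ⟨?_, ?_⟩⟩
  · have := Real.one_le_exp (by positivity : (0 : ℝ) ≤ 4 * C)
    linarith
  · have hzr : (1 : ℝ) < z := by exact_mod_cast (by omega : 1 < z)
    have hyr : (1 : ℝ) < y := by exact_mod_cast (by omega : 1 < y)
    have hlz := Real.log_pos hzr
    have hly := Real.log_pos hyr
    have h1 := abs_le.1 (h z hz)
    have h2 := abs_le.1 (h y (by omega))
    have h3 := split_Ioc (fun p => (1 : ℝ) / p) hzy
    unfold Pool.Agent.Helper559.S at h1 h2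
    have h4 : ∏ p ∈ (Ioc z y).filter Nat.Prime, (1 - 2 / (p : ℝ)) ≤
        Real.exp (-(2 * ∑ p ∈ (Ioc z y).filter Nat.Prime, (1 : ℝ) / p)) := by
      rw [← neg_mul, mul_sum, Real.exp_sum]
      apply prod_le_prod
      · intro p hp
        rw [mem_filter, mem_Ioc] at hp
        have : (2 : ℝ) ≤ p := by exact_mod_cast (by omega : 2 ≤ p)
        rw [sub_nonneg, div_le_one (by linarith)]
        exact this
      · intro p hp
        have := Real.add_one_le_exp (-2 * (1 / (p : ℝ)))
        linarith [(by ring : -2 * (1 / (p : ℝ)) + 1 = 1 - 2 / (p : ℝ))]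
    refine h4.trans ?_
    have h5 : Real.exp (-(2 * ∑ p ∈ (Ioc z y).filter Nat.Prime, (1 : ℝ) / p)) ≤
        Real.exp (4 * C + (2 * Real.log (Real.log z) - 2 * Real.log (Real.log y))) := by
      apply Real.exp_le_exp.2
      linarith [h1.2, h2.1]
    refine h5.trans ?_
    rw [Real.exp_add]
    have h6 : Real.exp (2 * Real.log (Real.log z) - 2 * Real.log (Real.log y)) = (Real.log z / Real.log y) ^ 2 := by
      have e : 2 * Real.log (Real.log z) - 2 * Real.log (Real.log y) = 2 * Real.log (Real.log z / Real.log y) := by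
        rw [Real.log_div hlz.ne' hly.ne']
        ring
      rw [e]
      have e2 : (2 : ℝ) * Real.log (Real.log z / Real.log y) = ((2 : ℕ) : ℝ) * Real.log (Real.log z / Real.log y) := by
        norm_num
      rw [e2, ← Real.log_pow, Real.exp_log (by positivity)]
    rw [h6]
    apply mul_le_mul_of_nonneg_right _ (by positivity)
    linarith
  · have h1 := abs_le.1 (h' z (by omega))
    have h2 := abs_le.1 (h' y (by omega))
    have h3 := split_Ioc (fun p => Real.log p / p) hzy
    have h4 : ∑ p ∈ (Ioc z y).filter Nat.Prime, 2 / (p : ℝ) * Real.log p =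
        2 * ∑ p ∈ (Ioc z y).filter Nat.Prime, Real.log p / p := by
      rw [mul_sum]
      refine sum_congr rfl fun p _ => ?_
      ring
    rw [h4]
    have h5 : 0 ≤ ∑ p ∈ (Icc 1 z).filter Nat.Prime, Real.log p / p :=
      sum_nonneg fun p _ => div_nonneg (Real.log_natCast_nonneg p) (Nat.cast_nonneg p)
    have h6 := Real.exp_pos (4 * C)
    linarith [h2.2]

end Pool.Agent.L7h79.GD
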