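import Pool.Agent.L7h79.GD.Core
import Pool.Agent.L7h79.GD.Link
import Pool.Agent.L7h79.GD.LS
import Pool.Agent.L7h79.GD.Crt
import Pool.Agent.L7h79.GD.Mert

/-!
# The gcd recursion for Goldbach pairs: the choice of the parameters
-/

set_option autoImplicit false

namespace Pool.Agent.L7h79.GD

open Finset Filter
open Pool.Agent.R105.GD.Gol (aa gg)

/-- the conditions on the size of `X` -/
theorem large (C : ℝ) : ∀ᶠ X : ℕ in atTop, 3 ≤ X ∧ 3 ≤ Real.log (Real.log X) ∧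
    64 * Real.log (Real.log X) ≤ Real.log X ∧ 12 * Real.log (Real.log X) + 2 * C + 1 ≤ Real.log X / 10 ∧
    Real.log X ^ 2 ≤ Real.exp (Real.log X / 64) ∧ 2209 ≤ Real.log X := by
  have hlog : Tendsto (fun X : ℕ => Real.log X) atTop atTop :=
    Real.tendsto_log_atTop.comp tendsto_natCast_atTop_atTop
  have hll : Tendsto (fun X : ℕ => Real.log (Real.log X)) atTop atTop := Real.tendsto_log_atTop.comp hlog
  have p1 : ∀ᶠ x : ℝ in atTop, 64 * Real.log x ≤ x := by
    have h1 := (Real.isLittleO_log_id_atTop).def (show (0 : ℝ) < 1 / 64 by norm_num)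
    filter_upwards [h1, eventually_ge_atTop (1 : ℝ)] with x hx hx1
    rw [Real.norm_eq_abs, Real.norm_eq_abs, id, abs_of_nonneg (by linarith : (0 : ℝ) ≤ x)] at hx
    have := (le_abs_self _).trans hx
    linarith
  have p2 : ∀ᶠ x : ℝ in atTop, 12 * Real.log x + 2 * C + 1 ≤ x / 10 := by
    have h1 := (Real.isLittleO_log_id_atTop).def (show (0 : ℝ) < 1 / 240 by norm_num)
    filter_upwards [h1, eventually_ge_atTop (1 : ℝ), eventually_ge_atTop (20 * (2 * C + 1))] with x hx hx1 hx2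
    rw [Real.norm_eq_abs, Real.norm_eq_abs, id, abs_of_nonneg (by linarith : (0 : ℝ) ≤ x)] at hx
    have := (le_abs_self _).trans hx
    linarith
  have p3 : ∀ᶠ x : ℝ in atTop, x ^ 2 ≤ Real.exp (x / 64) := by
    have h1 : Tendsto (fun x : ℝ => x / 64) atTop atTop := tendsto_id.atTop_div_const (by norm_num)
    have h2 := (Real.isLittleO_pow_exp_atTop (n := 2)).comp_tendsto h1
    have h3 := h2.def (show (0 : ℝ) < 1 / 4096 by norm_num)
    filter_upwards [h3] with x hx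
    simp only [Function.comp] at hx
    rw [Real.norm_eq_abs, Real.norm_eq_abs, abs_of_nonneg (Real.exp_pos _).le, abs_of_nonneg (by positivity)] at hx
    have e : (x / 64) ^ 2 = x ^ 2 / 4096 := by ring
    rw [e] at hx
    linarith
  filter_upwards [eventually_ge_atTop 3, hll.eventually_ge_atTop 3, hlog.eventually p1, hlog.eventually p2,
    hlog.eventually p3, hlog.eventually_ge_atTop 2209] with X h1 h2 h3 h4 h5 h6
  exact ⟨h1, h2, h3, h4, h5, h6⟩

/-- the modulus `Q` -/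
theorem modulus (L l : ℝ) (w z : ℕ) (hz : 1 ≤ z) (hl : 3 ≤ l) (hw : (w : ℝ) ≤ L / (32 * l)) (hzl : Real.log z ≤ 2 * l) :
    ∃ Q : ℕ, 1 ≤ Q ∧ (Q : ℝ) ≤ Real.exp (L / 4) ∧ (∀ p j : ℕ, p.Prime → p ≤ w → p ^ j ≤ z → p ^ j ∣ Q) ∧
      ∀ p : ℕ, p.Prime → w < p → ¬ p ∣ Q := by
  obtain ⟨J, hJ⟩ : ∃ J : ℕ, J = Nat.log 2 z + 1 := ⟨_, rfl⟩
  refine ⟨primorial w ^ J, Nat.one_le_pow _ _ (primorial_pos w), ?_, ?_, ?_⟩
  · have hJ1 : (J : ℝ) ≤ 4 * l := by
      have h1 : 2 ^ Nat.log 2 z ≤ z := Nat.pow_log_le_self 2 (by omega)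
      have h2 : (2 : ℝ) ^ Nat.log 2 z ≤ z := by exact_mod_cast h1
      have h3 : (Nat.log 2 z : ℝ) * Real.log 2 ≤ Real.log z := by
        rw [← Real.log_pow]
        exact Real.log_le_log (by positivity) h2
      have h4 := Real.log_two_gt_d9
      have h5 : (Nat.log 2 z : ℝ) * 0.69 ≤ 2 * l := by
        have h6 : (0 : ℝ) ≤ (Nat.log 2 z : ℝ) := Nat.cast_nonneg _
        nlinarith
      rw [hJ]
      push_cast
      linarith
    have h1 : (primorial w : ℝ) ≤ 4 ^ w := by exact_mod_cast primorial_le_four_pow w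
    have h0 : (0 : ℝ) ≤ primorial w := Nat.cast_nonneg _
    push_cast
    calc (primorial w : ℝ) ^ J ≤ ((4 : ℝ) ^ w) ^ J := pow_le_pow_left₀ h0 h1 J
      _ = Real.exp (((w * J : ℕ) : ℝ) * Real.log 4) := by
          rw [← pow_mul, ← Real.log_pow, Real.exp_log (by positivity)]
      _ ≤ Real.exp (L / 4) := by
          apply Real.exp_le_exp.2
          push_cast
          have h2 : Real.log 4 ≤ 2 := by
            have : Real.log 4 = 2 * Real.log 2 := by
              rw [show (4 : ℝ) = 2 ^ 2 by norm_num, Real.log_pow]; norm_num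
            have := Real.log_two_lt_d9
            linarith
          have h3 : (0 : ℝ) ≤ (w : ℝ) := Nat.cast_nonneg _
          have h4 : (w : ℝ) * J ≤ L / 8 := by
            calc (w : ℝ) * J ≤ L / (32 * l) * (4 * l) :=
                  mul_le_mul hw hJ1 (Nat.cast_nonneg _) (h3.trans hw)
              _ = L / 8 := by
                  field_simp
                  ring
          have h5 : (0 : ℝ) ≤ (w : ℝ) * J := by positivity
          nlinarith
  · intro p j hp hpw hj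
    have h1 : j ≤ J := by
      have h2 : 2 ^ j ≤ p ^ j := Nat.pow_le_pow_left hp.two_le j
      have h3 : z < 2 ^ J := by rw [hJ]; exact Nat.lt_pow_succ_log_self (by norm_num) z
      exact ((Nat.pow_lt_pow_iff_right (by norm_num)).1 (lt_of_le_of_lt (h2.trans hj) h3)).le
    exact (pow_dvd_pow p h1).trans (pow_dvd_pow_of_dvd (hp.dvd_primorial_iff.2 hpw) J)
  · intro p hp hwp h
    have h1 := hp.dvd_primorial_iff.1 (hp.dvd_of_dvd_pow h)
    omega

/-- the parameters -/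
theorem params (C : ℝ) (X H : ℕ) (hl : 3 ≤ Real.log (Real.log X)) (h64 : 64 * Real.log (Real.log X) ≤ Real.log X)
    (h12 : 12 * Real.log (Real.log X) + 2 * C + 1 ≤ Real.log X / 10)
    (hsq : Real.log X ^ 2 ≤ Real.exp (Real.log X / 64)) (hH : 2 ≤ H)
    (hHX : (H : ℝ) ≤ 1 / 100000 * (Real.log X / Real.log (Real.log X)) ^ 2) :
    ∃ w Q Z y : ℕ, 1 ≤ w ∧ w ≤ 6 * H + 1 ∧ 1 ≤ Q ∧ 2 ≤ Z ∧
      (∀ p j : ℕ, p.Prime → p ≤ w → p ^ j ≤ 6 * H + 1 → p ^ j ∣ Q) ∧ (∀ p : ℕ, p.Prime → w < p → ¬ p ∣ Q) ∧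
      6 * H + 1 < (w + 1) ^ 2 ∧ 6 * H + 1 ≤ y ∧
      2 * ((H : ℝ) / w * Real.log (6 * H + 1) + 2 * (6 * H + 1) / w * Real.log (6 * H + 1) + (2 * Real.log y + C)) ≤
        Real.log Z ∧ (Q : ℝ) * Z ^ 2 ≤ X ∧ Real.log X / 128 ≤ Real.log y ∧ (y : ℝ) ≤ Real.exp (Real.log X / 64) ∧
      Real.log (6 * H + 1) ≤ 4 * Real.log H := by
  obtain ⟨L, hL⟩ : ∃ L : ℝ, L = Real.log X := ⟨_, rfl⟩
  obtain ⟨l, hll⟩ : ∃ l : ℝ, l = Real.log L := ⟨_, rfl⟩
  rw [← hL] at hl h64 h12 hsq hHX ⊢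
  rw [← hll] at hl h64 h12 hHX
  have hl0 : 0 < l := by linarith
  have hL0 : 0 < L := by linarith
  have hHr : (2 : ℝ) ≤ H := by exact_mod_cast hH
  have hLl : L / l ≤ L := div_le_self hL0.le (by linarith)
  have hLl2 : (L / l) ^ 2 ≤ L ^ 2 := pow_le_pow_left₀ (by positivity) hLl 2
  have hLl0 : 0 < L / l := by positivity
  -- `z ≤ L ^ 2`
  have hzr : (6 * H + 1 : ℝ) ≤ 7 / 100000 * (L / l) ^ 2 := by linarith
  have hzL : (6 * H + 1 : ℝ) ≤ L ^ 2 := by nlinarith
  have hlogz : Real.log (6 * H + 1) ≤ 2 * l := by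
    have h1 : Real.log (6 * H + 1) ≤ Real.log (L ^ 2) := Real.log_le_log (by positivity) hzL
    rw [Real.log_pow] at h1
    rw [hll]
    exact_mod_cast h1
  have hlogz0 : 0 ≤ Real.log (6 * H + 1) := Real.log_nonneg (by linarith)
  -- `w`
  obtain ⟨w₀, hw₀⟩ : ∃ w₀ : ℕ, w₀ = ⌊L / (32 * l)⌋₊ := ⟨_, rfl⟩
  have hpos : 0 ≤ L / (32 * l) := by positivity
  have h2l : 2 ≤ L / (32 * l) := by
    rw [le_div_iff₀ (by positivity)]
    linarith
  have hw₀1 : (w₀ : ℝ) ≤ L / (32 * l) := by rw [hw₀]; exact Nat.floor_le hpos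
  have hw₀2 : L / (64 * l) ≤ w₀ := by
    have h1 : L / (32 * l) < w₀ + 1 := by rw [hw₀]; exact Nat.lt_floor_add_one _
    have h2 : L / (64 * l) = L / (32 * l) / 2 := by field_simp; norm_num
    rw [h2]
    linarith
  have hw₀3 : L / (32 * l) < w₀ + 1 := by rw [hw₀]; exact Nat.lt_floor_add_one _
  obtain ⟨w, hw⟩ : ∃ w : ℕ, w = min w₀ (6 * H + 1) := ⟨_, rfl⟩
  have hw1 : 1 ≤ w := by
    rw [hw]
    apply le_min _ (by omega)
    rw [hw₀]
    exact Nat.le_floor (by push_cast; linarith)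
  have hww₀ : w ≤ w₀ := by rw [hw]; exact min_le_left _ _
  have hwz : w ≤ 6 * H + 1 := by rw [hw]; exact min_le_right _ _
  have hwL : (w : ℝ) ≤ L / (32 * l) := le_trans (by exact_mod_cast hww₀) hw₀1
  obtain ⟨Q, hQ1, hQX, hQ2, hQ3⟩ := modulus L l w (6 * H + 1) (by omega) hl hwL (by push_cast; exact hlogz)
  -- `z < (w + 1) ^ 2`
  have hzw : 6 * H + 1 < (w + 1) ^ 2 := by
    rcases min_choice w₀ (6 * H + 1) with h | h
    · have h1 : w = w₀ := by rw [hw, h]
      have h2 : (L / (32 * l)) ^ 2 < ((w₀ : ℝ) + 1) ^ 2 := pow_lt_pow_left₀ hw₀3 hpos (by norm_num)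
      have h3 : (L / (32 * l)) ^ 2 = (L / l) ^ 2 / 1024 := by field_simp; norm_num
      rw [h3] at h2
      have h4 : (6 * H + 1 : ℝ) < ((w₀ : ℝ) + 1) ^ 2 := by nlinarith
      rw [h1]
      exact_mod_cast h4
    · have h1 : w = 6 * H + 1 := by rw [hw, h]
      rw [h1]
      nlinarith
  -- the sizes of `z / w`
  have hwr : (1 : ℝ) ≤ w := by exact_mod_cast hw1
  have hzlog : (H : ℝ) / w * Real.log (6 * H + 1) + 2 * (6 * H + 1) / w * Real.log (6 * H + 1) ≤ 6 * l + L / 50 := by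
    have e : (H : ℝ) / w * Real.log (6 * H + 1) + 2 * (6 * H + 1) / w * Real.log (6 * H + 1) =
        (13 * H + 2) / w * Real.log (6 * H + 1) := by
      field_simp
      ring
    rw [e]
    rcases min_choice w₀ (6 * H + 1) with h | h
    · have h1 : w = w₀ := by rw [hw, h]
      have h2 : (13 * H + 2 : ℝ) / w ≤ 14 * (1 / 100000 * (L / l) ^ 2) / (L / (64 * l)) := by
        apply div_le_div₀ (by positivity) _ (by positivity) (by rw [h1]; exact hw₀2)
        linarith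
      have h3 : 14 * (1 / 100000 * (L / l) ^ 2) / (L / (64 * l)) = 896 / 100000 * (L / l) := by
        field_simp
        norm_num
      rw [h3] at h2
      calc (13 * H + 2 : ℝ) / w * Real.log (6 * H + 1) ≤ 896 / 100000 * (L / l) * (2 * l) :=
            mul_le_mul h2 hlogz hlogz0 (by positivity)
        _ = 1792 / 100000 * L := by field_simp; norm_num
        _ ≤ 6 * l + L / 50 := by linarith
    · have h1 : w = 6 * H + 1 := by rw [hw, h]
      have h2 : (13 * H + 2 : ℝ) / w ≤ 3 := by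
        rw [div_le_iff₀ (by positivity), h1]
        push_cast
        linarith
      calc (13 * H + 2 : ℝ) / w * Real.log (6 * H + 1) ≤ 3 * (2 * l) :=
            mul_le_mul h2 hlogz hlogz0 (by norm_num)
        _ ≤ 6 * l + L / 50 := by linarith
  -- `Z`
  have hL200 : 192 ≤ L := by linarith
  obtain ⟨Z, hZ⟩ : ∃ Z : ℕ, Z = ⌊Real.exp (L / 4)⌋₊ := ⟨_, rfl⟩
  have hexp4 : L / 4 + 1 ≤ Real.exp (L / 4) := Real.add_one_le_exp _
  have hZ1 : (Z : ℝ) ≤ Real.exp (L / 4) := by rw [hZ]; exact Nat.floor_le (Real.exp_pos _).le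
  have hZ2 : Real.exp (L / 4) < Z + 1 := by rw [hZ]; exact Nat.lt_floor_add_one _
  have hZ3 : 2 ≤ Z := by
    rw [hZ]
    exact Nat.le_floor (by push_cast; linarith)
  have hZ3r : (2 : ℝ) ≤ Z := by exact_mod_cast hZ3
  have hexp1 : (2 : ℝ) ≤ Real.exp 1 := by have := Real.add_one_le_exp (1 : ℝ); linarith
  have hlogZ : L / 4 - 1 ≤ Real.log Z := by
    rw [Real.le_log_iff_exp_le (by linarith), Real.exp_sub, div_le_iff₀ (Real.exp_pos 1)]
    nlinarith
  -- `y`
  obtain ⟨y, hy⟩ : ∃ y : ℕ, y = ⌊Real.exp (L / 64)⌋₊ := ⟨_, rfl⟩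
  have hexp64 : L / 64 + 1 ≤ Real.exp (L / 64) := Real.add_one_le_exp _
  have hy1 : (y : ℝ) ≤ Real.exp (L / 64) := by rw [hy]; exact Nat.floor_le (Real.exp_pos _).le
  have hy2 : Real.exp (L / 64) < y + 1 := by rw [hy]; exact Nat.lt_floor_add_one _
  have hy3 : 6 * H + 1 ≤ y := by
    rw [hy]
    exact Nat.le_floor (by push_cast; linarith)
  have hy3r : (6 * H + 1 : ℝ) ≤ y := by exact_mod_cast hy3
  have hlogy : L / 64 - 1 ≤ Real.log y := by
    rw [Real.le_log_iff_exp_le (by linarith), Real.exp_sub, div_le_iff₀ (Real.exp_pos 1)]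
    nlinarith
  have hlogy2 : Real.log y ≤ L / 64 := by
    rw [Real.log_le_iff_le_exp (by linarith)]
    exact hy1
  have hX0 : (0 : ℝ) < X := by
    rcases Nat.eq_zero_or_pos X with h | h
    · rw [h, Nat.cast_zero, Real.log_zero] at hL
      linarith
    · exact_mod_cast h
  refine ⟨w, Q, Z, y, hw1, hwz, hQ1, hZ3, hQ2, hQ3, hzw, hy3, ?_, ?_, ?_, hy1, ?_⟩
  · linarith
  · calc (Q : ℝ) * Z ^ 2 ≤ Real.exp (L / 4) * Real.exp (L / 4) ^ 2 := by
          apply mul_le_mul hQX (pow_le_pow_left₀ (Nat.cast_nonneg _) hZ1 2) (by positivity) (Real.exp_pos _).le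
      _ = Real.exp (3 * (L / 4)) := by
          rw [← Real.exp_nat_mul, ← Real.exp_add]
          congr 1
          push_cast
          ring
      _ ≤ Real.exp L := Real.exp_le_exp.2 (by linarith)
      _ = X := by rw [hL, Real.exp_log hX0]
  · linarith
  · have h1 : (6 * H + 1 : ℝ) ≤ (H : ℝ) ^ 4 := by
      have h2 : (8 : ℝ) ≤ (H : ℝ) ^ 3 := by
        calc (8 : ℝ) = 2 ^ 3 := by norm_num
          _ ≤ (H : ℝ) ^ 3 := pow_le_pow_left₀ (by norm_num) hHr 3
      nlinarith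
    have h2 : Real.log (6 * H + 1) ≤ Real.log ((H : ℝ) ^ 4) := Real.log_le_log (by positivity) h1
    rw [Real.log_pow] at h2
    exact_mod_cast h2

end Pool.Agent.L7h79.GD
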