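import Pool.Agent.L7h79.GD.Fin

/-!
# The gcd recursion for Goldbach pairs: the number of the `N` with a small defect
-/

set_option autoImplicit false

namespace Pool.Agent.L7h79.GD

open Finset Filter
open Pool.Agent.R105.GD.Gol (aa gg)

open Classical in
/-- **the number of the `N ≤ X` with `2 ≤ N - g_N ≤ H`** -/
theorem count : ∃ C : ℝ, 0 < C ∧ ∀ᶠ X : ℕ in atTop, ∀ H : ℕ, 2 ≤ H →
    (H : ℝ) ≤ 1 / 100000 * (Real.log X / Real.log (Real.log X)) ^ 2 →
    (((Icc 3 X).filter (fun N : ℕ => gg N + 2 ≤ N ∧ N ≤ gg N + H)).card : ℝ) ≤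
      C * X * (Real.log H / Real.log X) ^ 2 := by
  obtain ⟨C, hC, hM⟩ := mert
  refine ⟨36 * C * 512 ^ 2 + 1, by positivity, (large C).mono ?_⟩
  rintro X ⟨hX3, hl, h64, h12, hsq, hL2209⟩ H hH hHX
  obtain ⟨w, Q, Z, y, hw1, hwz, hQ1, hZ2, hQ2, hQ3, hzw, hzy, hD, hQZ, hly, hye, hlz⟩ :=
    params C X H hl h64 h12 hsq hH hHX
  obtain ⟨L, hL⟩ : ∃ L : ℝ, L = Real.log X := ⟨_, rfl⟩
  rw [← hL] at hl h64 h12 hsq hHX hL2209 hly hye ⊢
  have hXr : (0 : ℝ) < X := by exact_mod_cast (by omega : 0 < X)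
  have hXe : Real.exp L = X := by rw [hL, Real.exp_log hXr]
  have hHr : (2 : ℝ) ≤ H := by exact_mod_cast hH
  have hL0 : 0 < L := by linarith
  have hHL : (H : ℝ) ≤ L ^ 2 / 100000 := by
    have h1 : (L / Real.log L) ^ 2 ≤ L ^ 2 :=
      pow_le_pow_left₀ (by apply div_nonneg <;> linarith) (div_le_self hL0.le (by linarith)) 2
    linarith
  obtain ⟨N₁, hN₁⟩ : ∃ N₁ : ℕ, N₁ = y + 9 * H + 2209 := ⟨_, rfl⟩
  obtain ⟨F, hF⟩ : ∃ F : Finset ℕ, F = (Icc 3 X).filter (fun N : ℕ => N₁ < N ∧ gg N + 2 ≤ N ∧ N ≤ gg N + H) := ⟨_, rfl⟩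
  obtain ⟨hM1, hM2⟩ := hM (6 * H + 1) y (by omega) hzy
  have hcore := core ls crt X H w Q Z y (2 * Real.log y + C) (by omega) hw1 hwz hQ1 hZ2 hQ2 hQ3 hzw hM2 hD F (by
    intro N hN
    rw [hF, mem_filter, mem_Icc] at hN
    obtain ⟨⟨h3, hNX⟩, hNN, hg2, hgH⟩ := hN
    have h1 := fin_path N H (by omega) (by omega) (by omega) hg2 hgH
    obtain ⟨hE1, hE2, -, hP1, hP2⟩ := h1
    refine ⟨by omega, hNX, hE1, by omega, ?_⟩
    intro p hp hzp hpy
    constructor
    · intro h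
      have e : (N : ℤ) - E (N : ℤ) (4 * H + 1) = ((N - E (N : ℤ) (4 * H + 1) : ℕ) : ℤ) := by
        rw [Nat.cast_sub (by omega)]
      rw [e, Int.natCast_dvd_natCast, Nat.prime_dvd_prime_iff_eq hp hP1] at h
      omega
    · intro h
      have e : (N : ℤ) + E (N : ℤ) (4 * H + 1) = ((N + E (N : ℤ) (4 * H + 1) : ℕ) : ℤ) := by push_cast; rfl
      rw [e, Int.natCast_dvd_natCast, Nat.prime_dvd_prime_iff_eq hp hP2] at h
      omega)
  -- the bound for `F`
  have hlogH : 0 < Real.log H := Real.log_pos (by linarith)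
  have hFc : (F.card : ℝ) ≤ 36 * C * 512 ^ 2 * X * (Real.log H / L) ^ 2 := by
    have hQr : (1 : ℝ) ≤ Q := by exact_mod_cast hQ1
    have hZr : (2 : ℝ) ≤ Z := by exact_mod_cast hZ2
    have h1 : (X : ℝ) + Q + Q * (Z : ℝ) ^ 2 ≤ 3 * X := by
      have : (Q : ℝ) ≤ Q * (Z : ℝ) ^ 2 := by nlinarith [mul_pos (by linarith : (0 : ℝ) < Q) (by linarith : (0 : ℝ) < Z)]
      linarith
    have h2 : (Real.log ((6 * H + 1 : ℕ) : ℝ) / Real.log y) ^ 2 ≤ 512 ^ 2 * (Real.log H / L) ^ 2 := by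
      rw [← mul_pow]
      apply pow_le_pow_left₀
      · apply div_nonneg (Real.log_natCast_nonneg _) (Real.log_natCast_nonneg _)
      · push_cast
        calc Real.log (6 * H + 1) / Real.log y ≤ 4 * Real.log H / (L / 128) :=
              div_le_div₀ (by positivity) hlz (by positivity) hly
          _ = 512 * (Real.log H / L) := by field_simp; norm_num
    have h3 : ∏ p ∈ (Ioc (6 * H + 1) y).filter Nat.Prime, (1 - 2 / (p : ℝ)) ≤ C * (512 ^ 2 * (Real.log H / L) ^ 2) :=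
      hM1.trans (mul_le_mul_of_nonneg_left h2 (by linarith))
    have h4 : 0 ≤ ∏ p ∈ (Ioc (6 * H + 1) y).filter Nat.Prime, (1 - 2 / (p : ℝ)) := by
      apply prod_nonneg
      intro p hp
      rw [mem_filter, mem_Ioc] at hp
      have : (2 : ℝ) ≤ p := by exact_mod_cast hp.2.two_le
      rw [sub_nonneg, div_le_one (by linarith)]
      exact this
    calc (F.card : ℝ) ≤ _ := hcore
      _ ≤ 12 * (3 * X) * (C * (512 ^ 2 * (Real.log H / L) ^ 2)) := by
          apply mul_le_mul _ h3 h4 (by positivity)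
          linarith
      _ = _ := by ring
  -- the small `N`
  have hsub : (Icc 3 X).filter (fun N : ℕ => gg N + 2 ≤ N ∧ N ≤ gg N + H) ⊆ range (N₁ + 1) ∪ F := by
    intro N hN
    rw [mem_filter] at hN
    rw [mem_union, mem_range, hF, mem_filter]
    by_cases h : N₁ < N
    · exact Or.inr ⟨hN.1, h, hN.2⟩
    · exact Or.inl (by omega)
  have hcard : (((Icc 3 X).filter (fun N : ℕ => gg N + 2 ≤ N ∧ N ≤ gg N + H)).card : ℝ) ≤ (N₁ + 1) + F.card := by
    have h1 := (card_le_card hsub).trans (card_union_le _ _)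
    rw [card_range] at h1
    exact_mod_cast h1
  have hN₁r : ((N₁ : ℝ) + 1) ≤ X * (Real.log H / L) ^ 2 := by
    have h1 : (N₁ : ℝ) + 1 ≤ 3 * Real.exp (L / 64) := by
      rw [hN₁]
      push_cast
      nlinarith
    have h2 : (1 / 2 : ℝ) ≤ Real.log H := by
      have h3 : Real.log 2 ≤ Real.log H := Real.log_le_log (by norm_num) hHr
      have := Real.log_two_gt_d9
      linarith
    have h4 : 1 / (4 * L ^ 2) ≤ (Real.log H / L) ^ 2 := by
      have h5 : (1 / 2 / L) ^ 2 ≤ (Real.log H / L) ^ 2 :=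
        pow_le_pow_left₀ (by positivity) (div_le_div_of_nonneg_right h2 hL0.le) 2
      have e : (1 / 2 / L) ^ 2 = 1 / (4 * L ^ 2) := by field_simp; norm_num
      rwa [e] at h5
    have h6 : 3 * Real.exp (L / 64) * (4 * L ^ 2) ≤ X := by
      have h7 : 3 * Real.exp (L / 64) * (4 * L ^ 2) ≤ 12 * Real.exp (L / 64) ^ 2 := by
        nlinarith [Real.exp_pos (L / 64)]
      have h8 : (12 : ℝ) ≤ Real.exp (L / 64) := by
        have := Real.add_one_le_exp (L / 64)
        linarith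
      have h9 : 12 * Real.exp (L / 64) ^ 2 ≤ Real.exp (L / 64) ^ 3 := by
        have : 0 < Real.exp (L / 64) ^ 2 := by positivity
        nlinarith
      have h10 : Real.exp (L / 64) ^ 3 ≤ X := by
        rw [← Real.exp_nat_mul, ← hXe]
        apply Real.exp_le_exp.2
        push_cast
        linarith
      linarith
    calc (N₁ : ℝ) + 1 ≤ 3 * Real.exp (L / 64) := h1
      _ = 3 * Real.exp (L / 64) * (4 * L ^ 2) * (1 / (4 * L ^ 2)) := by field_simp
      _ ≤ X * (Real.log H / L) ^ 2 := mul_le_mul h6 h4 (by positivity) hXr.le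
  calc (((Icc 3 X).filter (fun N : ℕ => gg N + 2 ≤ N ∧ N ≤ gg N + H)).card : ℝ) ≤ (N₁ + 1) + F.card := hcard
    _ ≤ X * (Real.log H / L) ^ 2 + 36 * C * 512 ^ 2 * X * (Real.log H / L) ^ 2 := by linarith
    _ = _ := by ring

end Pool.Agent.L7h79.GD
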