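import Pool.Agent.L7h79.GD.Stm

/-!
# The gcd recursion for Goldbach pairs: the path `δ_n`
-/

set_option autoImplicit false

namespace Pool.Agent.L7h79.GD

open Finset

theorem G_pos (x : ℤ) (m d : ℕ) (hm : 1 ≤ m) : 1 ≤ G x m d := by
  unfold G
  split_ifs with h
  · apply Nat.pos_of_ne_zero
    intro h0
    rw [Int.gcd_eq_zero_iff] at h0
    omega
  · apply Nat.pos_of_ne_zero
    intro h0
    rw [Int.gcd_eq_zero_iff] at h0
    omega

theorem dvd_gcd_iff' {a b : ℤ} {p : ℕ} : p ∣ Int.gcd a b ↔ (p : ℤ) ∣ a ∧ (p : ℤ) ∣ b := by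
  rw [← Int.dvd_coe_gcd_iff, Int.natCast_dvd_natCast]

theorem dvd_G_even {x : ℤ} {m d p : ℕ} (h : m % 2 = 0) : p ∣ G x m d ↔ (p : ℤ) ∣ x - d ∧ p ∣ m := by
  unfold G
  rw [if_pos h, dvd_gcd_iff', Int.natCast_dvd_natCast]

theorem dvd_G_odd {x : ℤ} {m d p : ℕ} (h : ¬ m % 2 = 0) : p ∣ G x m d ↔ (p : ℤ) ∣ x + d ∧ p ∣ m + 2 * d := by
  unfold G
  rw [if_neg h, dvd_gcd_iff']
  have e : ((m : ℤ) + 2 * d) = ((m + 2 * d : ℕ) : ℤ) := by push_cast; ring
  rw [e, Int.natCast_dvd_natCast]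

theorem E_succ (x : ℤ) (n : ℕ) (hn : 1 ≤ n) : E x (n + 1) = E x n + (G x (n + 1) (E x n) - 1) := by
  obtain ⟨k, rfl⟩ : ∃ k, n = k + 1 := ⟨n - 1, by omega⟩
  rw [E]

theorem E_le_succ (x : ℤ) (n : ℕ) : E x n ≤ E x (n + 1) := by
  rcases Nat.eq_zero_or_pos n with h | h
  · subst h
    simp [E]
  · rw [E_succ x n h]
    exact Nat.le_add_right _ _

theorem E_mono (x : ℤ) : Monotone (E x) := monotone_nat_of_le_succ (E_le_succ x)

theorem G_shift {x : ℤ} {m d p : ℕ} (h : p ∣ G x m d) (hm : 2 * p ≤ m) : p ∣ G x (m - 2 * p) d := by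
  by_cases h2 : m % 2 = 0
  · rw [dvd_G_even h2] at h
    have h3 : (m - 2 * p) % 2 = 0 := by omega
    rw [dvd_G_even h3]
    exact ⟨h.1, Nat.dvd_sub h.2 (Dvd.intro_left 2 rfl)⟩
  · rw [dvd_G_odd h2] at h
    have h3 : ¬ (m - 2 * p) % 2 = 0 := by omega
    rw [dvd_G_odd h3]
    refine ⟨h.1, ?_⟩
    have e : m - 2 * p + 2 * d = (m + 2 * d) - 2 * p := by omega
    rw [e]
    exact Nat.dvd_sub h.2 (Dvd.intro_left 2 rfl)

/-- the waiting times -/
theorem wait : S_WAIT := by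
  intro x n hn
  induction n, hn using Nat.le_induction with
  | base => exact ⟨1, le_rfl, le_rfl, by omega, rfl⟩
  | succ n hn ih =>
    obtain ⟨e, he1, hen, he4, hE⟩ := ih
    have hs := E_succ x n hn
    have hG := G_pos x (n + 1) (E x n) (by omega)
    by_cases hg : G x (n + 1) (E x n) = 1
    · rw [hg] at hs
      refine ⟨e, he1, by omega, by omega, by omega⟩
    · obtain ⟨p, hp, hpd⟩ := Nat.exists_prime_and_dvd hg
      have hple : p ≤ G x (n + 1) (E x n) := Nat.le_of_dvd hG hpd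
      refine ⟨n + 1, by omega, le_rfl, ?_, rfl⟩
      have hp2 := hp.two_le
      have key : n + 1 ≤ e + 2 * p := by
        by_contra hcon
        push Not at hcon
        have h1 := G_shift hpd (by omega)
        obtain ⟨j, hj⟩ : ∃ j, j = n - 2 * p := ⟨_, rfl⟩
        have hj1 : n + 1 - 2 * p = j + 1 := by omega
        rw [hj1] at h1
        have h2 : E x j = E x n := by
          apply le_antisymm (E_mono x (by omega))
          rw [← hE]
          exact E_mono x (by omega)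
        have h3 := E_succ x j (by omega)
        have h4 : E x (j + 1) ≤ E x n := E_mono x (by omega)
        rw [h2] at h3
        have h5 := G_pos x (j + 1) (E x n) (by omega)
        have h6 : p ≤ G x (j + 1) (E x n) := Nat.le_of_dvd h5 h1
        omega
      omega

/-- the gcd at the step `k` -/
theorem G_eq (x : ℤ) (k : ℕ) (hk : 1 ≤ k) : G x (k + 1) (E x k) = E x (k + 1) - E x k + 1 := by
  have h1 := E_succ x k hk
  have h2 := G_pos x (k + 1) (E x k) (by omega)
  omega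

/-- the numbers whose divisors are tested -/
theorem G_le (x : ℤ) (k d : ℕ) (hk : 1 ≤ k) : G x k d ≤ k + 2 * d := by
  by_cases h : k % 2 = 0
  · have h1 : G x k d ∣ k := ((dvd_G_even h).1 dvd_rfl).2
    exact (Nat.le_of_dvd (by omega) h1).trans (by omega)
  · have h1 : G x k d ∣ k + 2 * d := ((dvd_G_odd h).1 dvd_rfl).2
    exact Nat.le_of_dvd (by omega) h1

end Pool.Agent.L7h79.GD
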