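import Pool.Agent.L7h79.GD.Det

/-!
# The gcd recursion for Goldbach pairs: a given path fixes or excludes few classes
-/

set_option autoImplicit false

namespace Pool.Agent.L7h79.GD

open Finset

theorem E_sum (x : ℤ) (T : ℕ) (hT : 1 ≤ T) : ∑ k ∈ Ico 1 T, (G x (k + 1) (E x k) - 1) = E x T := by
  induction T, hT using Nat.le_induction with
  | base => simp [E]
  | succ T hT ih => rw [sum_Ico_succ_top hT, ih, E_succ x T hT]

open Classical in
/-- the primes which divide one of the gcds -/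
theorem known_card {T z w N₀ : ℕ} (hT1 : 1 ≤ T) (hz : z < (w + 1) ^ 2) (hT : T + 2 * E (N₀ : ℤ) T ≤ z)
    (K : Finset ℕ) (hK : ∀ p ∈ K, p.Prime ∧ w < p ∧ ∃ k, 1 ≤ k ∧ k < T ∧ p ∣ G (N₀ : ℤ) (k + 1) (E (N₀ : ℤ) k)) :
    K.card * w ≤ E (N₀ : ℤ) T := by
  have hch : ∀ p : ℕ, ∃ k : ℕ, p ∈ K → 1 ≤ k ∧ k < T ∧ p ∣ G (N₀ : ℤ) (k + 1) (E (N₀ : ℤ) k) := by
    intro p
    by_cases hp : p ∈ K
    · obtain ⟨k, hk⟩ := (hK p hp).2.2
      exact ⟨k, fun _ => hk⟩
    · exact ⟨0, fun h => absurd h hp⟩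
  choose f hf using hch
  have hinj : Set.InjOn f K := by
    intro p hp q hq hpq
    by_contra hne
    have h1 := hf p hp
    have h2 := hf q hq
    rw [← hpq] at h2
    have hc : Nat.Coprime p q := (Nat.coprime_primes (hK p hp).1 (hK q hq).1).2 hne
    have h3 := Nat.Coprime.mul_dvd_of_dvd_of_dvd hc h1.2.2 h2.2.2
    have h4 := G_pos (N₀ : ℤ) (f p + 1) (E (N₀ : ℤ) (f p)) (by omega)
    have h5 := Nat.le_of_dvd h4 h3
    have h6 := G_le (N₀ : ℤ) (f p + 1) (E (N₀ : ℤ) (f p)) (by omega)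
    have h7 : E (N₀ : ℤ) (f p) ≤ E (N₀ : ℤ) T := E_mono _ (by omega)
    have h8 : (w + 1) * (w + 1) ≤ p * q := Nat.mul_le_mul (hK p hp).2.1 (hK q hq).2.1
    have h9 : (w + 1) ^ 2 = (w + 1) * (w + 1) := pow_two _
    omega
  calc K.card * w = ∑ _p ∈ K, w := by rw [sum_const, smul_eq_mul]
    _ ≤ ∑ p ∈ K, (G (N₀ : ℤ) (f p + 1) (E (N₀ : ℤ) (f p)) - 1) := by
        refine sum_le_sum fun p hp => ?_
        have h1 := hf p hp
        have h4 := G_pos (N₀ : ℤ) (f p + 1) (E (N₀ : ℤ) (f p)) (by omega)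
        have h5 := Nat.le_of_dvd h4 h1.2.2
        have h6 := (hK p hp).2.1
        omega
    _ = ∑ k ∈ K.image f, (G (N₀ : ℤ) (k + 1) (E (N₀ : ℤ) k) - 1) := by
        rw [sum_image hinj]
    _ ≤ ∑ k ∈ Ico 1 T, (G (N₀ : ℤ) (k + 1) (E (N₀ : ℤ) k) - 1) := by
        apply sum_le_sum_of_subset
        intro k hk
        rw [mem_image] at hk
        obtain ⟨p, hp, rfl⟩ := hk
        rw [mem_Ico]
        exact ⟨(hf p hp).1, (hf p hp).2.1⟩
    _ = E (N₀ : ℤ) T := E_sum _ T hT1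

theorem card_mult {p z : ℕ} (S : Finset ℕ) (f : ℕ → ℕ) (hf : Set.InjOn f S)
    (h1 : ∀ k ∈ S, 1 ≤ f k ∧ f k ≤ z ∧ p ∣ f k) : S.card ≤ z / p := by
  have h2 : (S.image f).card = S.card := card_image_of_injOn hf
  rw [← h2]
  rcases Nat.eq_zero_or_pos p with hp | hp
  · subst hp
    have : S.image f = ∅ := by
      rw [eq_empty_iff_forall_notMem]
      intro m hm
      rw [mem_image] at hm
      obtain ⟨k, hk, rfl⟩ := hm
      obtain ⟨h3, -, h4⟩ := h1 k hk
      rw [Nat.zero_dvd] at h4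
      omega
    rw [this]
    simp
  · have h3 : S.image f ⊆ (Icc 1 (z / p)).image (fun j => p * j) := by
      intro m hm
      rw [mem_image] at hm
      obtain ⟨k, hk, rfl⟩ := hm
      obtain ⟨h3, h4, j, hj⟩ := h1 k hk
      rw [mem_image]
      refine ⟨j, ?_, hj.symm⟩
      rw [mem_Icc]
      constructor
      · by_contra h0
        have : j = 0 := by omega
        rw [this, mul_zero] at hj
        omega
      · rw [Nat.le_div_iff_mul_le hp, mul_comm]
        omega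
    refine (card_le_card h3).trans (card_image_le.trans ?_)
    rw [Nat.card_Icc, Nat.add_sub_cancel]

open Classical in
/-- the other primes -/
theorem unknown_card {T z N₀ p : ℕ} (hp : p.Prime) (hT : T + 2 * E (N₀ : ℤ) T ≤ z)
    (hU : ∀ k, 1 ≤ k → k < T → ¬ p ∣ G (N₀ : ℤ) (k + 1) (E (N₀ : ℤ) k)) :
    p ≤ (Ok T N₀ p).card + 2 * (z / p) := by
  obtain ⟨S1, hS1⟩ : ∃ S1 : Finset ℕ, S1 = (Ico 1 T).filter (fun k => (k + 1) % 2 = 0 ∧ p ∣ k + 1) := ⟨_, rfl⟩
  obtain ⟨S2, hS2⟩ : ∃ S2 : Finset ℕ, S2 = (Ico 1 T).filter (fun k => ¬ (k + 1) % 2 = 0 ∧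
    p ∣ k + 1 + 2 * E (N₀ : ℤ) k) := ⟨_, rfl⟩
  have c1 : S1.card ≤ z / p := by
    apply card_mult S1 (fun k => k + 1)
    · intro a _ b _ h
      simp only at h
      omega
    · intro k hk
      rw [hS1, mem_filter, mem_Ico] at hk
      exact ⟨by omega, by omega, hk.2.2⟩
  have c2 : S2.card ≤ z / p := by
    apply card_mult S2 (fun k => k + 1 + 2 * E (N₀ : ℤ) k)
    · intro a _ b _ h
      simp only at h
      by_contra hne
      rcases Nat.lt_or_gt_of_ne hne with h1 | h1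
      · have := E_mono (N₀ : ℤ) h1.le
        omega
      · have := E_mono (N₀ : ℤ) h1.le
        omega
    · intro k hk
      rw [hS2, mem_filter, mem_Ico] at hk
      have := E_mono (N₀ : ℤ) (show k ≤ T by omega)
      exact ⟨by omega, by omega, hk.2.2⟩
  have hsub : range p \ Ok T N₀ p ⊆ S1.image (fun k => E (N₀ : ℤ) k % p) ∪
      S2.image (fun k => (p - E (N₀ : ℤ) k % p) % p) := by
    intro t ht
    rw [mem_sdiff, mem_range] at ht
    have h1 : ∃ k, 1 ≤ k ∧ k < T ∧ p ∣ G (t : ℤ) (k + 1) (E (N₀ : ℤ) k) := by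
      by_contra hcon
      push Not at hcon
      apply ht.2
      unfold Ok
      rw [mem_filter, mem_range]
      refine ⟨ht.1, fun k hk1 hkT => ?_⟩
      constructor
      · intro h
        exact absurd h (hcon k hk1 hkT)
      · intro h
        exact absurd h (hU k hk1 hkT)
    obtain ⟨k, hk1, hkT, hk⟩ := h1
    rw [mem_union, mem_image, mem_image]
    by_cases h2 : (k + 1) % 2 = 0
    · left
      rw [dvd_G_even h2] at hk
      refine ⟨k, ?_, ?_⟩
      · rw [hS1, mem_filter, mem_Ico]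
        exact ⟨⟨hk1, hkT⟩, h2, hk.2⟩
      · have h3 : E (N₀ : ℤ) k ≡ t [MOD p] := (Nat.modEq_iff_dvd.2 hk.1)
        rw [h3]
        exact Nat.mod_eq_of_lt ht.1
    · right
      rw [dvd_G_odd h2] at hk
      refine ⟨k, ?_, ?_⟩
      · rw [hS2, mem_filter, mem_Ico]
        exact ⟨⟨hk1, hkT⟩, h2, hk.2⟩
      · have h4 : E (N₀ : ℤ) k % p < p := Nat.mod_lt _ hp.pos
        have h3 : (p - E (N₀ : ℤ) k % p) ≡ t [MOD p] := by
          rw [Nat.modEq_iff_dvd]
          have e1 : ((p - E (N₀ : ℤ) k % p : ℕ) : ℤ) = (p : ℤ) - ((E (N₀ : ℤ) k % p : ℕ) : ℤ) := by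
            rw [Nat.cast_sub h4.le]
          rw [e1]
          have h5 := mod_congr (E (N₀ : ℤ) k) p
          have h6 := dvd_add hk.1 h5
          have e2 : (t : ℤ) + ((E (N₀ : ℤ) k : ℕ) : ℤ) + (((E (N₀ : ℤ) k % p : ℕ) : ℤ) - ((E (N₀ : ℤ) k : ℕ) : ℤ)) =
            (t : ℤ) + ((E (N₀ : ℤ) k % p : ℕ) : ℤ) := by ring
          rw [e2] at h6
          have h7 := dvd_sub h6 (dvd_refl (p : ℤ))
          have e3 : (t : ℤ) + ((E (N₀ : ℤ) k % p : ℕ) : ℤ) - p = (t : ℤ) - ((p : ℤ) - ((E (N₀ : ℤ) k % p : ℕ) : ℤ)) := by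
            ring
          rwa [e3] at h7
        rw [h3]
        exact Nat.mod_eq_of_lt ht.1
  have h1 := (card_le_card hsub).trans ((card_union_le _ _).trans (Nat.add_le_add card_image_le card_image_le))
  have h2 : (Ok T N₀ p) ⊆ range p := filter_subset _ _
  have h3 := card_sdiff_add_card_eq_card h2
  rw [card_range] at h3
  omega

open Classical in
theorem ok_card_le (T N₀ p : ℕ) : (Ok T N₀ p).card ≤ p := by
  refine (card_filter_le _ _).trans ?_
  rw [card_range]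

open Classical in
/-- the total logarithmic size -/
theorem size {T z w N₀ : ℕ} (hw : 1 ≤ w) (hz1 : 1 ≤ z) (hT1 : 1 ≤ T) (hz : z < (w + 1) ^ 2)
    (hT : T + 2 * E (N₀ : ℤ) T ≤ z) :
    ∑ p ∈ (Ioc w z).filter Nat.Prime, (((p : ℝ) - (Ok T N₀ p).card) / p) * Real.log p ≤
      (E (N₀ : ℤ) T : ℝ) / w * Real.log z + 2 * z / w * Real.log z := by
  obtain ⟨P, hP⟩ : ∃ P : Finset ℕ, P = (Ioc w z).filter Nat.Prime := ⟨_, rfl⟩
  obtain ⟨K, hK⟩ : ∃ K : Finset ℕ, K = P.filter (fun p => ∃ k, 1 ≤ k ∧ k < T ∧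
    p ∣ G (N₀ : ℤ) (k + 1) (E (N₀ : ℤ) k)) := ⟨_, rfl⟩
  rw [← hP]
  have hwr : (0 : ℝ) < w := by exact_mod_cast hw
  have hz1r : (1 : ℝ) ≤ z := by exact_mod_cast hz1
  have hlz : 0 ≤ Real.log z := Real.log_nonneg hz1r
  have hKc : K.card * w ≤ E (N₀ : ℤ) T := by
    apply known_card hT1 hz hT
    intro p hp
    rw [hK, mem_filter, hP, mem_filter, mem_Ioc] at hp
    exact ⟨hp.1.2, hp.1.1.1, hp.2⟩
  have hKr : (K.card : ℝ) ≤ (E (N₀ : ℤ) T : ℝ) / w := by
    rw [le_div_iff₀ hwr]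
    exact_mod_cast hKc
  have hmem : ∀ p ∈ P, p.Prime ∧ w < p ∧ p ≤ z := by
    intro p hp
    rw [hP, mem_filter, mem_Ioc] at hp
    exact ⟨hp.2, hp.1⟩
  have hlog : ∀ p ∈ P, 0 ≤ Real.log p ∧ Real.log p ≤ Real.log z := by
    intro p hp
    have h1 := hmem p hp
    have h2 : (1 : ℝ) ≤ p := by exact_mod_cast h1.1.one_lt.le
    exact ⟨Real.log_nonneg h2, Real.log_le_log (by linarith) (by exact_mod_cast h1.2.2)⟩
  rw [← sum_filter_add_sum_filter_not P (fun p => ∃ k, 1 ≤ k ∧ k < T ∧ p ∣ G (N₀ : ℤ) (k + 1) (E (N₀ : ℤ) k)), ← hK]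
  apply add_le_add
  · calc ∑ p ∈ K, (((p : ℝ) - (Ok T N₀ p).card) / p) * Real.log p ≤ ∑ _p ∈ K, Real.log z := by
          refine sum_le_sum fun p hp => ?_
          have hpP : p ∈ P := by rw [hK] at hp; exact (mem_filter.1 hp).1
          have h1 := hlog p hpP
          have hp0 : (0 : ℝ) < p := by exact_mod_cast (hmem p hpP).1.pos
          have h2 : (((p : ℝ) - (Ok T N₀ p).card) / p) ≤ 1 := by
            rw [div_le_one hp0]
            have : (0 : ℝ) ≤ (Ok T N₀ p).card := Nat.cast_nonneg _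
            linarith
          calc (((p : ℝ) - (Ok T N₀ p).card) / p) * Real.log p ≤ 1 * Real.log p :=
                mul_le_mul_of_nonneg_right h2 h1.1
            _ = Real.log p := one_mul _
            _ ≤ Real.log z := h1.2
      _ = K.card * Real.log z := by rw [sum_const, nsmul_eq_mul]
      _ ≤ (E (N₀ : ℤ) T : ℝ) / w * Real.log z := mul_le_mul_of_nonneg_right hKr hlz
  · obtain ⟨U, hU⟩ : ∃ U : Finset ℕ, U = P.filter (fun p => ¬ ∃ k, 1 ≤ k ∧ k < T ∧
      p ∣ G (N₀ : ℤ) (k + 1) (E (N₀ : ℤ) k)) := ⟨_, rfl⟩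
    rw [← hU]
    calc ∑ p ∈ U, (((p : ℝ) - (Ok T N₀ p).card) / p) * Real.log p
        ≤ ∑ p ∈ U, 2 * z * Real.log z * (((p : ℝ) ^ 2)⁻¹) := by
          refine sum_le_sum fun p hp => ?_
          have hpP : p ∈ P := by rw [hU] at hp; exact (mem_filter.1 hp).1
          have h1 := hlog p hpP
          have hpp := (hmem p hpP).1
          have hp0 : (0 : ℝ) < p := by exact_mod_cast hpp.pos
          have h3 : p ≤ (Ok T N₀ p).card + 2 * (z / p) := by
            apply unknown_card hpp hT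
            intro k hk1 hkT hd
            rw [hU, mem_filter] at hp
            exact hp.2 ⟨k, hk1, hkT, hd⟩
          have h4 : (p : ℝ) - (Ok T N₀ p).card ≤ 2 * (z / p) := by
            have h5 : (p : ℝ) ≤ (Ok T N₀ p).card + 2 * ((z / p : ℕ) : ℝ) := by exact_mod_cast h3
            have h6 : ((z / p : ℕ) : ℝ) ≤ z / p := Nat.cast_div_le
            linarith
          calc (((p : ℝ) - (Ok T N₀ p).card) / p) * Real.log p ≤ ((2 * (z / p)) / p) * Real.log p := by
                apply mul_le_mul_of_nonneg_right _ h1.1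
                exact div_le_div_of_nonneg_right h4 hp0.le
            _ ≤ ((2 * (z / p)) / p) * Real.log z := by
                apply mul_le_mul_of_nonneg_left h1.2
                positivity
            _ = 2 * z * Real.log z * (((p : ℝ) ^ 2)⁻¹) := by
                field_simp
      _ = 2 * z * Real.log z * ∑ p ∈ U, (((p : ℝ) ^ 2)⁻¹) := by rw [mul_sum]
      _ ≤ 2 * z * Real.log z * (w : ℝ)⁻¹ := by
          apply mul_le_mul_of_nonneg_left _ (by positivity)
          rcases Nat.lt_or_ge z w with hzw | hzw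
          · have : U = ∅ := by
              rw [hU, hP, Ioc_eq_empty (by omega)]
              simp
            rw [this, sum_empty]
            positivity
          · have h5 : ∑ p ∈ U, (((p : ℝ) ^ 2)⁻¹) ≤ ∑ p ∈ Ioc w z, (((p : ℝ) ^ 2)⁻¹) := by
              apply sum_le_sum_of_subset_of_nonneg
              · rw [hU, hP]
                exact (filter_subset _ _).trans (filter_subset _ _)
              · intro _ _ _
                positivity
            have h6 := sum_Ioc_inv_sq_le_sub (α := ℝ) (by omega : w ≠ 0) hzw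
            have h7 : (0 : ℝ) ≤ (z : ℝ)⁻¹ := by positivity
            linarith
      _ = 2 * z / w * Real.log z := by
          rw [div_eq_mul_inv]
          ring

end Pool.Agent.L7h79.GD
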