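import Mathlib

/-!
# The gcd recursion for Goldbach pairs: the distribution of `N - g_N` near zero (statements of the parts)

`δ_n = E x n` is the sum of the `gcd - 1` up to the step `n`, for the parameter `x`. The gcds up to the step `T` are
determined by the classes of `x` modulo the numbers up to `T + 2 δ_T`, so that the path is determined by the class
modulo a number `Q` (the small primes) and by the classes modulo the primes between `w` and `z`; a given path fixes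
or excludes few classes modulo these primes.
-/

set_option autoImplicit false

namespace Pool.Agent.L7h79.GD

open Finset

/-- the gcd at the step `m`, for the parameter `x` and the state `d` -/
def G (x : ℤ) (m d : ℕ) : ℕ :=
  if m % 2 = 0 then Int.gcd (x - d) m else Int.gcd (x + d) ((m : ℤ) + 2 * d)

/-- `δ_n`: the sum of the `gcd - 1` over the steps up to `n` -/
def E (x : ℤ) : ℕ → ℕ
  | 0 => 0
  | 1 => 0
  | (n + 2) => E x (n + 1) + (G x (n + 2) (E x (n + 1)) - 1)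

/-- **LS** the large sieve (`Pool.Agent.TH314.ET.mont_sqf` and `Pool.Agent.Helper112.additive_large_sieve`) in a
progression. With `h p = (p - |R p|) / |R p|` one has `1 + h p = p / |R p|`; the sum of `∏_{p ∈ B} h p` over the
subsets `B` of `P` with `∏_{p ∈ B} p > Z` is at most `1 / 2` of the sum over all `B`, by Markov's inequality for
`log ∏_{p ∈ B} p`. -/
def S_LS : Prop := ∀ (X Q r Z : ℕ) (P : Finset ℕ) (R : ℕ → Finset ℕ) (F : Finset ℕ),
  1 ≤ Q → 2 ≤ Z → (∀ p ∈ P, p.Prime ∧ ¬ p ∣ Q ∧ (R p).card ≤ p) →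
  F ⊆ Icc 1 X → (∀ N ∈ F, N % Q = r) → (∀ N ∈ F, ∀ p ∈ P, N % p ∈ R p) →
  2 * ∑ p ∈ P, (((p : ℝ) - (R p).card) / p) * Real.log p ≤ Real.log Z →
  (F.card : ℝ) ≤ 12 * ((X : ℝ) / Q + 1 + (Z : ℝ) ^ 2) * ∏ p ∈ P, ((R p).card : ℝ) / p

/-- **CRT** the Chinese remainder theorem (in fact equality) -/
def S_CRT : Prop := ∀ (Q r : ℕ) (P : Finset ℕ) (A : ℕ → Finset ℕ), 1 ≤ Q → r < Q →
  (∀ p ∈ P, p.Prime ∧ ¬ p ∣ Q ∧ A p ⊆ range p) →
  ∏ p ∈ P, (A p).card ≤
    ((range (Q * ∏ p ∈ P, p)).filter (fun x => x % Q = r ∧ ∀ p ∈ P, x % p ∈ A p)).card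

/-- **WAIT** the waiting time for a prime `p` which divides `x ± δ` is at most `2 p`, so that the last step `e ≤ n`
with a gcd `> 1` (or `e = 1`) is at most `1 + 4 δ_n`. Induction on `n`: if the gcd `d` at the step `n + 1` is `> 1`, `p` a
prime divisor of `d` and `n + 1 > e + 2 p`, then `p` divides the gcd at the step `n + 1 - 2 p`; so
`n + 1 ≤ e + 2 p ≤ e + 2 d ≤ e + 4 (d - 1)`. -/
def S_WAIT : Prop := ∀ (x : ℤ) (n : ℕ), 1 ≤ n →
  ∃ e, 1 ≤ e ∧ e ≤ n ∧ e ≤ 1 + 4 * E x n ∧ E x e = E x n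

/-- **MERT** Mertens -/
def S_MERT : Prop := ∃ C : ℝ, 1 ≤ C ∧ ∀ z y : ℕ, 2 ≤ z → z ≤ y →
  ∏ p ∈ (Ioc z y).filter Nat.Prime, (1 - 2 / (p : ℝ)) ≤ C * (Real.log z / Real.log y) ^ 2 ∧
  ∑ p ∈ (Ioc z y).filter Nat.Prime, 2 / (p : ℝ) * Real.log p ≤ 2 * Real.log y + C

end Pool.Agent.L7h79.GD
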